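import Mathlib
import Pool.Agent.H785R2.ABC.Defs

/-!
# abc: failure of all bounds at a level (seven exponent classes and the tail)
-/

namespace Pool.Agent.W221.ABC7

open Finset Pool.Agent.H785R2.ABC

/-- all bounds M, S, D, E fail at the level `t` -/
structure Fail (v w : Fin 3 → Fin 8 → ℝ) (t : ℝ) : Prop where
  M : ∀ p q r : Fin 3, p ≠ q → q ≠ r → p ≠ r → ∀ k : ℕ, 1 ≤ k → k ≤ 8 →
    ∀ Sp Sq F : Finset (Fin 8), Good 7 k Sp → Good 7 k Sq →
    t < cost v p Spᶜ + cost v q Sqᶜ + cost v r F ∨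
    t < cost v p Spᶜ + cost v q Sqᶜ + cost v r F +
      ((cost w p Sp + cost w q Sq) / k - cost w r F - thn w r)
  S : ∀ p q r : Fin 3, p ≠ q → q ≠ r → p ≠ r → ∀ F : Finset (Fin 8),
    t < cost v r F + (1 / 2) * (cost v p univ + max 0 (3 / 2 * cost v p univ - cost w r F)) +
      (1 / 2) * (cost v q univ + max 0 (3 / 2 * cost v q univ - cost w r F))
  D : ∀ p q r : Fin 3, p ≠ q → q ≠ r → p ≠ r → ∀ i : Fin 8, 1 ≤ (i : ℕ) → (i : ℕ) < 7 →
    t < cost v p {i}ᶜ + cost v q univ ∨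
    t < (1 / 2) * (cost v p {i}ᶜ + cost v q univ) + cost v r univ
  E : ∀ p q r : Fin 3, p ≠ q → q ≠ r → p ≠ r → ∀ F : Finset (Fin 8), ∀ op oq : Opt 7,
    op.Valid → oq.Valid → ∃ y ∈ (Bnd.E (K := 7) p q r F op oq).pieces v w, t < y

/-- the weights -/
structure Wt (v w : Fin 3 → Fin 8 → ℝ) : Prop where
  w0 : ∀ j, w j 0 = v j 0
  w1 : ∀ j, w j 1 = 2 * v j 1
  w2 : ∀ j, w j 2 = 3 * v j 2
  w3 : ∀ j, w j 3 = 4 * v j 3
  w4 : ∀ j, w j 4 = 5 * v j 4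
  w5 : ∀ j, w j 5 = 6 * v j 5
  w6 : ∀ j, w j 6 = 7 * v j 6

theorem wt_of {lam δ : ℝ} {v w : Fin 3 → Fin 8 → ℝ} (hP : Poly 7 lam δ v w) : Wt v w := by
  refine ⟨fun j => ?_, fun j => ?_, fun j => ?_, fun j => ?_, fun j => ?_, fun j => ?_,
    fun j => ?_⟩
  · have := hP.w_eq j 0 (by norm_num)
    simpa using this
  · rw [hP.w_eq j 1 (by norm_num)]
    norm_num
  · rw [hP.w_eq j 2 (by norm_num)]
    norm_num
  · rw [hP.w_eq j 3 (by norm_num)]
    norm_num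
  · rw [hP.w_eq j 4 (by norm_num)]
    norm_num
  · rw [hP.w_eq j 5 (by norm_num)]
    norm_num
  · rw [hP.w_eq j 6 (by norm_num)]
    norm_num

theorem max2s (t X P Q A B : ℝ)
    (h : t < X + (1 / 2) * (P + max 0 A) + (1 / 2) * (Q + max 0 B)) :
    t < X + 1 / 2 * P + 1 / 2 * Q ∨ t < X + 1 / 2 * P + 1 / 2 * Q + 1 / 2 * A ∨
      t < X + 1 / 2 * P + 1 / 2 * Q + 1 / 2 * B ∨
      t < X + 1 / 2 * P + 1 / 2 * Q + 1 / 2 * A + 1 / 2 * B := by
  rcases max_choice (0 : ℝ) A with h1 | h1 <;> rcases max_choice (0 : ℝ) B with h2 | h2 <;>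
    rw [h1, h2] at h
  · left; linarith
  · right; right; left; linarith
  · right; left; linarith
  · right; right; right; linarith

end Pool.Agent.W221.ABC7
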