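import Mathlib
import Pool.Agent.W221.ABC.Fail7

/-!
# abc cells: a checker for branch and bound certificates (packed linear forms)

A linear form in 29 nonnegative variables and a constant is a pair `P - N`, each of the two
nonnegative coefficient vectors packed into one natural number in base `Bs`.
-/

namespace Pool.Agent.W221.ABC7

open Finset Pool.Agent.H785R2.ABC

/-- base of the packing, `2 ^ 128` -/
def Bs : ℕ := 340282366920938463463374607431768211456

/-- packed linear form `P - N`; all coefficients are at most `M` -/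
structure Fm where
  P : ℕ
  N : ℕ
  M : ℕ

namespace Fm

def zero : Fm := ⟨0, 0, 0⟩
def un (j : ℕ) : Fm := ⟨Nat.pow Bs j, 0, 1⟩
def add (a b : Fm) : Fm := ⟨Nat.add a.P b.P, Nat.add a.N b.N, Nat.add a.M b.M⟩
def sub (a b : Fm) : Fm := ⟨Nat.add a.P b.N, Nat.add a.N b.P, Nat.add a.M b.M⟩
def mul (m : ℕ) (a : Fm) : Fm := ⟨Nat.mul m a.P, Nat.mul m a.N, Nat.mul m a.M⟩
def cnd (b : Bool) (f : Fm) : Fm := bif b then f else zero

end Fm

open Fm

/-- the packing of a coefficient vector -/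
def sm (L : ℕ → ℕ) : ℕ := ∑ j ∈ range 30, L j * Bs ^ j

/-- the packed form `f` represents the number `r` at the point `x` -/
def Rep (x : ℕ → ℝ) (f : Fm) (r : ℝ) : Prop :=
  ∃ L L' : ℕ → ℕ, (∀ j, L j ≤ f.M) ∧ (∀ j, L' j ≤ f.M) ∧ f.P = sm L ∧ f.N = sm L' ∧
    r = ∑ j ∈ range 30, ((L j : ℝ) - L' j) * x j

theorem sm_zero : sm (fun _ => 0) = 0 := by simp [sm]

theorem sm_add (L L' : ℕ → ℕ) : sm (fun j => L j + L' j) = sm L + sm L' := by
  simp only [sm, add_mul, sum_add_distrib]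

theorem sm_mul (m : ℕ) (L : ℕ → ℕ) : sm (fun j => m * L j) = m * sm L := by
  simp only [sm, mul_sum, mul_assoc]

variable {x : ℕ → ℝ} {f g : Fm} {r s : ℝ}

theorem rep_congr (h : Rep x f r) (e : r = s) : Rep x f s := e ▸ h

theorem rep_zero : Rep x zero 0 :=
  ⟨fun _ => 0, fun _ => 0, fun _ => le_rfl, fun _ => le_rfl, sm_zero.symm, sm_zero.symm, by simp⟩

theorem rep_un (j : ℕ) (hj : j < 30) : Rep x (un j) (x j) := by
  refine ⟨fun i => if i = j then 1 else 0, fun _ => 0, fun i => ?_, fun _ => Nat.zero_le _, ?_,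
    sm_zero.symm, ?_⟩
  · show (if i = j then 1 else 0) ≤ 1
    split_ifs <;> omega
  · show Bs ^ j = sm _
    unfold sm
    rw [Finset.sum_eq_single j]
    · simp
    · intro b _ hb
      simp [hb]
    · intro h
      exact absurd (mem_range.2 hj) h
  · rw [Finset.sum_eq_single j]
    · simp
    · intro b _ hb
      simp [hb]
    · intro h
      exact absurd (mem_range.2 hj) h

theorem rep_add (hf : Rep x f r) (hg : Rep x g s) : Rep x (f.add g) (r + s) := by
  obtain ⟨L, L', h1, h2, h3, h4, h5⟩ := hf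
  obtain ⟨K, K', k1, k2, k3, k4, k5⟩ := hg
  refine ⟨fun j => L j + K j, fun j => L' j + K' j, fun j => Nat.add_le_add (h1 j) (k1 j),
    fun j => Nat.add_le_add (h2 j) (k2 j), ?_, ?_, ?_⟩
  · show f.P + g.P = _
    rw [sm_add, h3, k3]
  · show f.N + g.N = _
    rw [sm_add, h4, k4]
  · rw [h5, k5, ← sum_add_distrib]
    refine sum_congr rfl fun j _ => ?_
    push_cast
    ring

theorem rep_sub (hf : Rep x f r) (hg : Rep x g s) : Rep x (f.sub g) (r - s) := by
  obtain ⟨L, L', h1, h2, h3, h4, h5⟩ := hf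
  obtain ⟨K, K', k1, k2, k3, k4, k5⟩ := hg
  refine ⟨fun j => L j + K' j, fun j => L' j + K j, fun j => Nat.add_le_add (h1 j) (k2 j),
    fun j => Nat.add_le_add (h2 j) (k1 j), ?_, ?_, ?_⟩
  · show f.P + g.N = _
    rw [sm_add, h3, k4]
  · show f.N + g.P = _
    rw [sm_add, h4, k3]
  · rw [h5, k5, ← sum_sub_distrib]
    refine sum_congr rfl fun j _ => ?_
    push_cast
    ring

theorem rep_mul (m : ℕ) (hf : Rep x f r) : Rep x (f.mul m) ((m : ℝ) * r) := by
  obtain ⟨L, L', h1, h2, h3, h4, h5⟩ := hf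
  refine ⟨fun j => m * L j, fun j => m * L' j, fun j => Nat.mul_le_mul_left m (h1 j),
    fun j => Nat.mul_le_mul_left m (h2 j), ?_, ?_, ?_⟩
  · show m * f.P = _
    rw [sm_mul, h3]
  · show m * f.N = _
    rw [sm_mul, h4]
  · rw [h5, mul_sum]
    refine sum_congr rfl fun j _ => ?_
    push_cast
    ring

theorem rep_cnd (b : Bool) (hf : Rep x f r) : Rep x (cnd b f) (if b = true then r else 0) := by
  cases b
  · simpa [cnd] using rep_zero
  · simpa [cnd] using hf

/-- digitwise comparison in base `Bs` -/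
def leD : ℕ → ℕ → ℕ → Bool
  | 0, _, _ => true
  | k + 1, P, N => Nat.ble (Nat.mod P Bs) (Nat.mod N Bs) && leD k (Nat.div P Bs) (Nat.div N Bs)

theorem leD_sound (k : ℕ) : ∀ (P N : ℕ) (L L' : ℕ → ℕ), (∀ j, L j < Bs) → (∀ j, L' j < Bs) →
    P = ∑ j ∈ range k, L j * Bs ^ j → N = ∑ j ∈ range k, L' j * Bs ^ j →
    leD k P N = true → ∀ j, j < k → L j ≤ L' j := by
  induction k with
  | zero => intro P N L L' _ _ _ _ _ j hj; omega
  | succ k ih =>
    intro P N L L' hL hL' hP hN h j hj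
    have hB : 0 < Bs := by unfold Bs; norm_num
    have key : ∀ (A : ℕ) (Q : ℕ → ℕ), (∀ j, Q j < Bs) → A = ∑ j ∈ range (k + 1), Q j * Bs ^ j →
        A % Bs = Q 0 ∧ A / Bs = ∑ j ∈ range k, Q (j + 1) * Bs ^ j := by
      intro A Q hQ hA
      rw [Finset.sum_range_succ'] at hA
      have e : ∑ j ∈ range k, Q (j + 1) * Bs ^ (j + 1) =
          Bs * ∑ j ∈ range k, Q (j + 1) * Bs ^ j := by
        rw [mul_sum]
        refine sum_congr rfl fun j _ => ?_
        ring
      rw [e, pow_zero, mul_one] at hA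
      constructor
      · rw [hA, Nat.mul_add_mod]
        exact Nat.mod_eq_of_lt (hQ 0)
      · rw [hA, Nat.mul_add_div hB, Nat.div_eq_of_lt (hQ 0), add_zero]
    obtain ⟨p1, p2⟩ := key P L hL hP
    obtain ⟨n1, n2⟩ := key N L' hL' hN
    have h' : (Nat.ble (P % Bs) (N % Bs) && leD k (P / Bs) (N / Bs)) = true := h
    rw [Bool.and_eq_true] at h'
    obtain ⟨h1, h2⟩ := h'
    rcases Nat.eq_zero_or_pos j with h0 | h0
    · subst h0
      have := Nat.le_of_ble_eq_true h1
      rw [p1, n1] at this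
      exact this
    · obtain ⟨i, rfl⟩ : ∃ i, j = i + 1 := ⟨j - 1, by omega⟩
      exact ih (P / Bs) (N / Bs) (fun j => L (j + 1)) (fun j => L' (j + 1)) (fun j => hL _)
        (fun j => hL' _) p2 n2 h2 i (by omega)

theorem rep_nonpos (hx : ∀ j, 0 ≤ x j) (hf : Rep x f r) (hM : f.M < Bs)
    (h : leD 30 f.P f.N = true) : r ≤ 0 := by
  obtain ⟨L, L', h1, h2, h3, h4, h5⟩ := hf
  have key := leD_sound 30 f.P f.N L L' (fun j => (h1 j).trans_lt hM)
    (fun j => (h2 j).trans_lt hM) h3 h4 h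
  rw [h5]
  refine Finset.sum_nonpos fun j hj => ?_
  have h6 : (L j : ℝ) ≤ L' j := by exact_mod_cast key j (mem_range.1 hj)
  exact mul_nonpos_of_nonpos_of_nonneg (by linarith) (hx j)

/-- weighted sum of forms; the weights are the digits of `n` in base `W` -/
def comb (W : ℕ) : List Fm → ℕ → Fm
  | [], _ => zero
  | f :: fs, n => bif Nat.beq (Nat.mod n W) 0 then comb W fs (Nat.div n W)
      else Fm.add (Fm.mul (Nat.mod n W) f) (comb W fs (Nat.div n W))

theorem comb_base (W : ℕ) : ∀ (l : List Fm) (n : ℕ), (∀ f ∈ l, ∃ r, Rep x f r ∧ 0 ≤ r) →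
    ∃ r, Rep x (comb W l n) r ∧ 0 ≤ r := by
  intro l
  induction l with
  | nil => intro n _; exact ⟨0, rep_zero, le_rfl⟩
  | cons f fs ih =>
    intro n h
    obtain ⟨r, hr, hr0⟩ := ih (n / W) fun g hg => h g (List.mem_cons_of_mem _ hg)
    obtain ⟨s, hs, hs0⟩ := h f List.mem_cons_self
    show ∃ r, Rep x (bif Nat.beq (n % W) 0 then comb W fs (n / W)
      else Fm.add (Fm.mul (n % W) f) (comb W fs (n / W))) r ∧ 0 ≤ r
    cases hb : Nat.beq (n % W) 0
    · exact ⟨_, rep_add (rep_mul _ hs) hr, by positivity⟩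
    · exact ⟨r, hr, hr0⟩

theorem comb_path (W : ℕ) : ∀ (l : List Fm) (n : ℕ), (∀ f ∈ l, ∃ r, Rep x f r ∧ 0 < r) →
    ∃ r, Rep x (comb W l n) r ∧ 0 ≤ r ∧ ((comb W l n).M ≠ 0 → 0 < r) := by
  intro l
  induction l with
  | nil => intro n _; exact ⟨0, rep_zero, le_rfl, fun h => absurd rfl h⟩
  | cons f fs ih =>
    intro n h
    obtain ⟨r, hr, hr0, hr1⟩ := ih (n / W) fun g hg => h g (List.mem_cons_of_mem _ hg)
    obtain ⟨s, hs, hs0⟩ := h f List.mem_cons_self
    have e : comb W (f :: fs) n = (bif Nat.beq (n % W) 0 then comb W fs (n / W)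
      else Fm.add (Fm.mul (n % W) f) (comb W fs (n / W))) := rfl
    rw [e]
    cases hb : Nat.beq (n % W) 0
    · have h1 : 0 < n % W := by
        rcases Nat.eq_zero_or_pos (n % W) with h0 | h0
        · rw [h0] at hb
          exact absurd hb (by decide)
        · exact h0
      have h2 : (0 : ℝ) < ((n % W : ℕ) : ℝ) := by exact_mod_cast h1
      have h3 : 0 < ((n % W : ℕ) : ℝ) * s + r := by positivity
      exact ⟨_, rep_add (rep_mul _ hs) hr, h3.le, fun _ => h3⟩
    · exact ⟨r, hr, hr0, hr1⟩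

/-- a leaf: the code is `w + 64 * (n₂ + 2 ^ (9 w) * n₁)`; weights of the base rows are the digits
of `n₂` in base `2 ^ w`, weights of the path rows those of `n₁` -/
def leafOk (base g : List Fm) (n : ℕ) : Bool :=
  let w := Nat.mod n 64
  let m := Nat.div n 64
  let W := Nat.pow 2 w
  let U := Nat.pow 2 (Nat.mul 9 w)
  let A := comb W g (Nat.div m U)
  let C := Fm.add A (comb W base (Nat.mod m U))
  Nat.ble 1 A.M && Nat.blt C.M Bs && leD 30 C.P C.N

theorem leafOk_sound (hx : ∀ j, 0 ≤ x j) (base g : List Fm) (n : ℕ)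
    (hb : ∀ f ∈ base, ∃ r, Rep x f r ∧ 0 ≤ r) (hg : ∀ f ∈ g, ∃ r, Rep x f r ∧ 0 < r)
    (h : leafOk base g n = true) : False := by
  unfold leafOk at h
  simp only [Bool.and_eq_true] at h
  obtain ⟨⟨h1, h2⟩, h3⟩ := h
  obtain ⟨r, hr, hr0, hr1⟩ := comb_path (Nat.pow 2 (Nat.mod n 64)) g
    (Nat.div (Nat.div n 64) (Nat.pow 2 (Nat.mul 9 (Nat.mod n 64)))) hg
  obtain ⟨s, hs, hs0⟩ := comb_base (Nat.pow 2 (Nat.mod n 64)) base
    (Nat.mod (Nat.div n 64) (Nat.pow 2 (Nat.mul 9 (Nat.mod n 64)))) hb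
  have h4 := Nat.le_of_ble_eq_true h1
  have h5 := rep_nonpos hx (rep_add hr hs) (Nat.le_of_ble_eq_true h2) h3
  have h6 := hr1 (by omega)
  linarith

/-! ### Masks, building blocks -/

/-- membership of the class `i` in the mask `m` -/
def bt (m i : ℕ) : Bool := Nat.beq (Nat.mod (Nat.div m (Nat.pow 2 i)) 2) 1

/-- the set of classes with mask `m` -/
def st (m : ℕ) : Finset (Fin 8) := univ.filter fun i => bt m i = true

/-- `Fin 3` from a number -/
def fz (p : ℕ) : Fin 3 := if p = 0 then 0 else if p = 1 then 1 else 2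

def V (p m : ℕ) : Fm :=
  add (cnd (bt m 0) (un (Nat.mul 8 p))) (add (cnd (bt m 1) (un (Nat.add (Nat.mul 8 p) 1))) (add (cnd (bt m 2) (un (Nat.add (Nat.mul 8 p) 2))) (add (cnd (bt m 3) (un (Nat.add (Nat.mul 8 p) 3))) (add (cnd (bt m 4) (un (Nat.add (Nat.mul 8 p) 4))) (add (cnd (bt m 5) (un (Nat.add (Nat.mul 8 p) 5))) (add (cnd (bt m 6) (un (Nat.add (Nat.mul 8 p) 6))) (cnd (bt m 7) (un (Nat.add (Nat.mul 8 p) 7)))))))))

def VC (p m : ℕ) : Fm :=
  add (cnd (!bt m 0) (un (Nat.mul 8 p))) (add (cnd (!bt m 1) (un (Nat.add (Nat.mul 8 p) 1))) (add (cnd (!bt m 2) (un (Nat.add (Nat.mul 8 p) 2))) (add (cnd (!bt m 3) (un (Nat.add (Nat.mul 8 p) 3))) (add (cnd (!bt m 4) (un (Nat.add (Nat.mul 8 p) 4))) (add (cnd (!bt m 5) (un (Nat.add (Nat.mul 8 p) 5))) (add (cnd (!bt m 6) (un (Nat.add (Nat.mul 8 p) 6))) (cnd (!bt m 7) (un (Nat.add (Nat.mul 8 p) 7)))))))))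

def W (p m : ℕ) : Fm :=
  add (cnd (bt m 0) (un (Nat.mul 8 p))) (add (cnd (bt m 1) (mul 2 (un (Nat.add (Nat.mul 8 p) 1)))) (add (cnd (bt m 2) (mul 3 (un (Nat.add (Nat.mul 8 p) 2)))) (add (cnd (bt m 3) (mul 4 (un (Nat.add (Nat.mul 8 p) 3)))) (add (cnd (bt m 4) (mul 5 (un (Nat.add (Nat.mul 8 p) 4)))) (add (cnd (bt m 5) (mul 6 (un (Nat.add (Nat.mul 8 p) 5)))) (add (cnd (bt m 6) (mul 7 (un (Nat.add (Nat.mul 8 p) 6)))) (cnd (bt m 7) (add (mul 8 (un (Nat.add (Nat.mul 8 p) 7))) (un (Nat.add 24 p))))))))))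

def tn (r : ℕ) : Fm := bif Nat.beq r 0 then sub (un 29) (W 0 255) else zero

/-- the coordinates -/
noncomputable def xx (v w : Fin 3 → Fin 8 → ℝ) (lam δ : ℝ) (n : ℕ) : ℝ :=
  if n < 24 then v (fz (n / 8)) (Fin.ofNat 8 (n % 8)) else
  if n < 27 then w (fz (n - 24)) 7 - 8 * v (fz (n - 24)) 7 else
  if n = 27 then lam else if n = 28 then δ else if n = 29 then 1 else 0

section blocks

variable {v w : Fin 3 → Fin 8 → ℝ} {lam δ : ℝ}

theorem xx_v (p i : ℕ) (hp : p < 3) (hi : i < 8) :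
    xx v w lam δ (8 * p + i) = v (fz p) (Fin.ofNat 8 i) := by
  have h1 : 8 * p + i < 24 := by omega
  have h2 : (8 * p + i) / 8 = p := by omega
  have h3 : (8 * p + i) % 8 = i := by omega
  simp only [xx, h1, if_true, h2, h3]

theorem xx_y (p : ℕ) (hp : p < 3) :
    xx v w lam δ (24 + p) = w (fz p) 7 - 8 * v (fz p) 7 := by
  have h1 : ¬ (24 + p < 24) := by omega
  have h2 : 24 + p < 27 := by omega
  have h3 : 24 + p - 24 = p := by omega
  simp only [xx, h1, if_false, h2, if_true, h3]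

theorem xx_27 : xx v w lam δ 27 = lam := by simp [xx]
theorem xx_28 : xx v w lam δ 28 = δ := by simp [xx]
theorem xx_29 : xx v w lam δ 29 = 1 := by simp [xx]

theorem cost_st (v : Fin 3 → Fin 8 → ℝ) (j : Fin 3) (m : ℕ) :
    cost v j (st m) = (if bt m 0 = true then v j 0 else 0) + ((if bt m 1 = true then v j 1 else 0) +
      ((if bt m 2 = true then v j 2 else 0) + ((if bt m 3 = true then v j 3 else 0) +
        ((if bt m 4 = true then v j 4 else 0) + ((if bt m 5 = true then v j 5 else 0) +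
          ((if bt m 6 = true then v j 6 else 0) + (if bt m 7 = true then v j 7 else 0))))))) := by
  unfold cost st
  rw [Finset.sum_filter, Fin.sum_univ_eight]
  simp only [add_assoc]
  rfl

theorem st_compl (m : ℕ) : (st m)ᶜ = univ.filter fun i : Fin 8 => (!bt m i) = true := by
  ext i
  simp [st]

theorem cost_stc (v : Fin 3 → Fin 8 → ℝ) (j : Fin 3) (m : ℕ) :
    cost v j (st m)ᶜ = (if (!bt m 0) = true then v j 0 else 0) +
      ((if (!bt m 1) = true then v j 1 else 0) +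
      ((if (!bt m 2) = true then v j 2 else 0) + ((if (!bt m 3) = true then v j 3 else 0) +
        ((if (!bt m 4) = true then v j 4 else 0) + ((if (!bt m 5) = true then v j 5 else 0) +
          ((if (!bt m 6) = true then v j 6 else 0) +
            (if (!bt m 7) = true then v j 7 else 0))))))) := by
  rw [st_compl]
  unfold cost
  rw [Finset.sum_filter, Fin.sum_univ_eight]
  simp only [add_assoc]
  rfl

theorem st_255 : st 255 = univ := by decide

theorem rep_x0 (p : ℕ) (hp : p < 3) :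
    Rep (xx v w lam δ) (un (Nat.mul 8 p)) (v (fz p) 0) := by
  have := rep_un (x := xx v w lam δ) (8 * p + 0) (by omega)
  rw [xx_v p 0 hp (by norm_num)] at this
  exact this

theorem rep_xi (p i : ℕ) (hp : p < 3) (hi : i < 8) :
    Rep (xx v w lam δ) (un (Nat.add (Nat.mul 8 p) i)) (v (fz p) (Fin.ofNat 8 i)) := by
  have := rep_un (x := xx v w lam δ) (8 * p + i) (by omega)
  rw [xx_v p i hp hi] at this
  exact this

theorem rep_y (p : ℕ) (hp : p < 3) :
    Rep (xx v w lam δ) (un (Nat.add 24 p)) (w (fz p) 7 - 8 * v (fz p) 7) := by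
  have := rep_un (x := xx v w lam δ) (24 + p) (by omega)
  rw [xx_y p hp] at this
  exact this

theorem rep_V (p m : ℕ) (hp : p < 3) :
    Rep (xx v w lam δ) (V p m) (cost v (fz p) (st m)) := by
  rw [cost_st]
  exact rep_add (rep_cnd _ (rep_x0 p hp)) (rep_add (rep_cnd _ (rep_xi p 1 hp (by norm_num)))
    (rep_add (rep_cnd _ (rep_xi p 2 hp (by norm_num)))
      (rep_add (rep_cnd _ (rep_xi p 3 hp (by norm_num)))
        (rep_add (rep_cnd _ (rep_xi p 4 hp (by norm_num)))
          (rep_add (rep_cnd _ (rep_xi p 5 hp (by norm_num)))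
            (rep_add (rep_cnd _ (rep_xi p 6 hp (by norm_num)))
              (rep_cnd _ (rep_xi p 7 hp (by norm_num)))))))))

theorem rep_VC (p m : ℕ) (hp : p < 3) :
    Rep (xx v w lam δ) (VC p m) (cost v (fz p) (st m)ᶜ) := by
  rw [cost_stc]
  exact rep_add (rep_cnd _ (rep_x0 p hp)) (rep_add (rep_cnd _ (rep_xi p 1 hp (by norm_num)))
    (rep_add (rep_cnd _ (rep_xi p 2 hp (by norm_num)))
      (rep_add (rep_cnd _ (rep_xi p 3 hp (by norm_num)))
        (rep_add (rep_cnd _ (rep_xi p 4 hp (by norm_num)))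
          (rep_add (rep_cnd _ (rep_xi p 5 hp (by norm_num)))
            (rep_add (rep_cnd _ (rep_xi p 6 hp (by norm_num)))
              (rep_cnd _ (rep_xi p 7 hp (by norm_num)))))))))

theorem rep_W (hw : Wt v w) (p m : ℕ) (hp : p < 3) :
    Rep (xx v w lam δ) (W p m) (cost w (fz p) (st m)) := by
  rw [cost_st, hw.w0, hw.w1, hw.w2, hw.w3, hw.w4, hw.w5, hw.w6]
  have e4 : w (fz p) 7 = ((8 : ℕ) : ℝ) * v (fz p) 7 + (w (fz p) 7 - 8 * v (fz p) 7) := by
    push_cast
    ring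
  rw [e4]
  exact rep_add (rep_cnd _ (rep_x0 p hp))
    (rep_add (rep_cnd _ (rep_congr (rep_mul 2 (rep_xi p 1 hp (by norm_num))) (by push_cast; rfl)))
    (rep_add (rep_cnd _ (rep_congr (rep_mul 3 (rep_xi p 2 hp (by norm_num))) (by push_cast; rfl)))
    (rep_add (rep_cnd _ (rep_congr (rep_mul 4 (rep_xi p 3 hp (by norm_num))) (by push_cast; rfl)))
    (rep_add (rep_cnd _ (rep_congr (rep_mul 5 (rep_xi p 4 hp (by norm_num))) (by push_cast; rfl)))
    (rep_add (rep_cnd _ (rep_congr (rep_mul 6 (rep_xi p 5 hp (by norm_num))) (by push_cast; rfl)))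
    (rep_add (rep_cnd _ (rep_congr (rep_mul 7 (rep_xi p 6 hp (by norm_num))) (by push_cast; rfl)))
      (rep_cnd _ (rep_add (rep_mul 8 (rep_xi p 7 hp (by norm_num))) (rep_y p hp)))))))))

theorem rep_tn (hw : Wt v w) (r : ℕ) (hr : r < 3) :
    Rep (xx v w lam δ) (tn r) (thn w (fz r)) := by
  unfold tn thn
  interval_cases r
  · have h1 := rep_un (x := xx v w lam δ) 29 (by norm_num)
    rw [xx_29] at h1
    have h2 := rep_W (lam := lam) (δ := δ) hw 0 255 (by norm_num)
    rw [st_255] at h2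
    exact rep_sub h1 h2
  · exact rep_zero
  · exact rep_zero

end blocks

end Pool.Agent.W221.ABC7
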