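import Mathlib
import Pool.Agent.W221.ABC.Chk7

/-!
# abc cells: the bounds M, E, S, D as packed forms, and the run of a certificate
-/

namespace Pool.Agent.W221.ABC7

open Finset Pool.Agent.H785R2.ABC Fm

/-! ### validity -/

def all8 (f : ℕ → Bool) : Bool := f 0 && f 1 && f 2 && f 3 && f 4 && f 5 && f 6 && f 7

theorem all8_iff {f : ℕ → Bool} (h : all8 f = true) (i : Fin 8) : f i = true := by
  unfold all8 at h
  simp only [Bool.and_eq_true] at h
  obtain ⟨⟨⟨⟨⟨⟨⟨h0, h1⟩, h2⟩, h3⟩, h4⟩, h5⟩, h6⟩, h7⟩ := h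
  fin_cases i
  · exact h0
  · exact h1
  · exact h2
  · exact h3
  · exact h4
  · exact h5
  · exact h6
  · exact h7

/-- `k` is one of the admissible powers -/
def okk (k : ℕ) : Bool := Nat.ble 1 k && Nat.ble k 7

def goodb (k S : ℕ) : Bool := okk k && (Nat.beq k 1 || all8 fun i =>
  !bt S i || (Nat.blt i 7 && Nat.beq (Nat.mod (Nat.add i 1) k) 0))

theorem good_of {k S : ℕ} (h : goodb k S = true) : Good 7 k (st S) := by
  unfold goodb at h
  rw [Bool.and_eq_true, Bool.or_eq_true] at h
  obtain ⟨-, h | h⟩ := h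
  · intro i _
    exact Or.inl (Nat.eq_of_beq_eq_true h)
  · intro i hi
    have h1 := all8_iff h i
    rw [Bool.or_eq_true, Bool.and_eq_true] at h1
    rcases h1 with h1 | ⟨h1, h2⟩
    · have h3 := (mem_filter.1 hi).2
      rw [h3] at h1
      exact absurd h1 (by decide)
    · right
      exact ⟨Nat.le_of_ble_eq_true h1, Nat.dvd_of_mod_eq_zero (Nat.eq_of_beq_eq_true h2)⟩

theorem okk_of {k : ℕ} (h : okk k = true) : 1 ≤ k ∧ k ≤ 7 := by
  unfold okk at h
  rw [Bool.and_eq_true] at h
  exact ⟨Nat.le_of_ble_eq_true h.1, Nat.le_of_ble_eq_true h.2⟩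

theorem goodk {k S : ℕ} (h : goodb k S = true) : 1 ≤ k ∧ k ≤ 7 := by
  unfold goodb at h
  rw [Bool.and_eq_true] at h
  exact okk_of h.1

theorem div_ok {k n : ℕ} (h : 1 ≤ k ∧ k ≤ 7) (hn : 420 ∣ n) : ((n / k : ℕ) : ℝ) = (n : ℝ) / k := by
  have h1 : k ∣ 420 := by
    obtain ⟨h1, h2⟩ := h
    interval_cases k <;> decide
  rw [Nat.cast_div (h1.trans hn) (by have := h.1; positivity)]

/-- distinct sides -/
def perm (p q r : ℕ) : Bool :=
  Nat.blt p 3 && Nat.blt q 3 && Nat.blt r 3 && !Nat.beq p q && !Nat.beq q r && !Nat.beq p r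

theorem fz_inj {p q : ℕ} (hp : p < 3) (hq : q < 3) (h : (!Nat.beq p q) = true) : fz p ≠ fz q := by
  interval_cases p <;> interval_cases q <;> revert h <;> decide

theorem perm_of {p q r : ℕ} (h : perm p q r = true) :
    p < 3 ∧ q < 3 ∧ r < 3 ∧ fz p ≠ fz q ∧ fz q ≠ fz r ∧ fz p ≠ fz r := by
  unfold perm at h
  simp only [Bool.and_eq_true] at h
  obtain ⟨⟨⟨⟨⟨h1, h2⟩, h3⟩, h4⟩, h5⟩, h6⟩ := h
  have h1' : p < 3 := Nat.le_of_ble_eq_true h1
  have h2' : q < 3 := Nat.le_of_ble_eq_true h2
  have h3' : r < 3 := Nat.le_of_ble_eq_true h3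
  exact ⟨h1', h2', h3', fz_inj h1' h2' h4, fz_inj h2' h3' h5, fz_inj h1' h3' h6⟩

/-- an option given by numbers -/
def opt (t k₁ S₁ k₂ S₂ mu : ℕ) : Opt 7 :=
  if t = 0 then .zero else if t = 1 then .one k₁ mu (st S₁) else .two k₁ (st S₁) k₂ (st S₂)

def okop (t k₁ S₁ k₂ S₂ mu : ℕ) : Bool :=
  bif Nat.beq t 0 then true else
  bif Nat.beq t 1 then goodb k₁ S₁ && okk mu && all8 fun i => !bt S₁ i || Nat.ble mu (Nat.add i 1)
  else goodb k₁ S₁ && goodb k₂ S₂ && all8 fun i => !(bt S₁ i && bt S₂ i)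

/-! ### pieces -/

section pieces

variable {v w : Fin 3 → Fin 8 → ℝ} {lam δ : ℝ}

/-- every number of the second list, times `c`, is represented by a form in the first -/
def Cov (x : ℕ → ℝ) (c : ℝ) (l : List Fm) (m : List ℝ) : Prop :=
  ∀ y ∈ m, ∃ f ∈ l, Rep x f (c * y)

def pM (p q r k Sp Sq F : ℕ) : List Fm :=
  let c := mul 840 (add (VC p Sp) (add (VC q Sq) (V r F)))
  [c, add c (sub (mul (Nat.div 840 k) (add (W p Sp) (W q Sq))) (mul 840 (add (W r F) (tn r))))]

theorem cov_M (hw : Wt v w) {p q r k Sp Sq F : ℕ} (hp : p < 3) (hq : q < 3) (hr : r < 3)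
    (hk : 1 ≤ k ∧ k ≤ 7) :
    Cov (xx v w lam δ) 840 (pM p q r k Sp Sq F)
      ((Bnd.M (K := 7) (fz p) (fz q) (fz r) k (st Sp) (st Sq) (st F)).pieces v w) := by
  have e1 := rep_mul 840 (rep_add (rep_VC (v := v) (w := w) (lam := lam) (δ := δ) p Sp hp)
    (rep_add (rep_VC (v := v) (w := w) (lam := lam) (δ := δ) q Sq hq)
      (rep_V (v := v) (w := w) (lam := lam) (δ := δ) r F hr)))
  have e2 := rep_sub (rep_mul (840 / k) (rep_add (rep_W (lam := lam) (δ := δ) hw p Sp hp)
    (rep_W (lam := lam) (δ := δ) hw q Sq hq)))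
    (rep_mul 840 (rep_add (rep_W (lam := lam) (δ := δ) hw r F hr)
      (rep_tn (lam := lam) (δ := δ) hw r hr)))
  have hk0 : (0 : ℝ) < k := by exact_mod_cast hk.1
  intro y hy
  simp only [Bnd.pieces, List.mem_cons, List.not_mem_nil, or_false] at hy
  rcases hy with rfl | rfl
  · refine ⟨_, List.mem_cons_self, rep_congr e1 ?_⟩
    push_cast
    ring
  · refine ⟨_, List.mem_cons_of_mem _ List.mem_cons_self, rep_congr (rep_add e1 e2) ?_⟩
    rw [div_ok hk (by decide)]
    push_cast
    field_simp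
    ring

def pS (p q r F : ℕ) : List Fm :=
  let c := add (mul 840 (V r F)) (mul 420 (add (V p 255) (V q 255)))
  let a := sub (mul 630 (V p 255)) (mul 420 (W r F))
  let b := sub (mul 630 (V q 255)) (mul 420 (W r F))
  [c, add c a, add c b, add c (add a b)]

def pD (p q r i : ℕ) : List Fm :=
  let c := add (sub (V p 255) (V p (Nat.pow 2 i))) (V q 255)
  [mul 840 c, add (mul 420 c) (mul 840 (V r 255))]

def opP (r j F t k₁ S₁ k₂ S₂ mu : ℕ) : List Fm :=
  bif Nat.beq t 0 then [mul 840 (V j 255)] else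
  bif Nat.beq t 1 then
    (let a := add (mul 840 (VC j S₁))
      (mul (Nat.div 420 mu) (sub (W (bif Nat.beq r 0 then 0 else j) 255) (W r F)))
    [a, add a (sub (mul (Nat.div 840 k₁) (W j S₁)) (mul 420 (add (W r F) (tn r))))])
  else
    (let c := mul 420 (add (VC j S₁) (VC j S₂))
    let a := sub (mul (Nat.div 420 k₁) (W j S₁)) (mul 210 (add (W r F) (tn r)))
    let b := sub (mul (Nat.div 420 k₂) (W j S₂)) (mul 210 (add (W r F) (tn r)))
    [c, add c a, add c b, add (add c a) b])

def pE (p q r F : ℕ) (a b : List Fm) : List Fm :=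
  add (mul 840 (V r F)) (mul 840 (V q 255)) ::
    (a.map (fun y => add (mul 840 (V r F)) (add y (mul 420 (V q 255)))) ++
      a.flatMap fun y => b.map fun z => add (mul 840 (V r F)) (add y z))

theorem cov_S (hw : Wt v w) {p q r F : ℕ} (hp : p < 3) (hq : q < 3) (hr : r < 3) :
    ∀ t : ℝ, t < cost v (fz r) (st F) +
      (1 / 2) * (cost v (fz p) univ + max 0 (3 / 2 * cost v (fz p) univ - cost w (fz r) (st F))) +
      (1 / 2) * (cost v (fz q) univ + max 0 (3 / 2 * cost v (fz q) univ - cost w (fz r) (st F))) →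
    ∃ y, t < y ∧ ∃ f ∈ pS p q r F, Rep (xx v w lam δ) f (840 * y) := by
  intro t ht
  have vp := rep_V (v := v) (w := w) (lam := lam) (δ := δ) p 255 hp
  have vq := rep_V (v := v) (w := w) (lam := lam) (δ := δ) q 255 hq
  have vr := rep_V (v := v) (w := w) (lam := lam) (δ := δ) r F hr
  have wr := rep_W (lam := lam) (δ := δ) hw r F hr
  rw [st_255] at vp vq
  have c := rep_add (rep_mul 840 vr) (rep_mul 420 (rep_add vp vq))
  have a := rep_sub (rep_mul 630 vp) (rep_mul 420 wr)
  have b := rep_sub (rep_mul 630 vq) (rep_mul 420 wr)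
  rcases max2s _ _ _ _ _ _ ht with h | h | h | h
  · refine ⟨_, h, _, List.mem_cons_self, rep_congr c ?_⟩
    push_cast
    ring
  · refine ⟨_, h, _, List.mem_cons_of_mem _ List.mem_cons_self, rep_congr (rep_add c a) ?_⟩
    push_cast
    ring
  · refine ⟨_, h, _, List.mem_cons_of_mem _ (List.mem_cons_of_mem _ List.mem_cons_self),
      rep_congr (rep_add c b) ?_⟩
    push_cast
    ring
  · refine ⟨_, h, _, List.mem_cons_of_mem _ (List.mem_cons_of_mem _
      (List.mem_cons_of_mem _ List.mem_cons_self)), rep_congr (rep_add c (rep_add a b)) ?_⟩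
    push_cast
    ring

theorem st_pow {i : ℕ} (hi : i < 8) : st (2 ^ i) = {Fin.ofNat 8 i} := by
  interval_cases i <;> decide

theorem cov_D {p q r i : ℕ} (hp : p < 3) (hq : q < 3) (hr : r < 3) (hi : i < 8) :
    ∀ t : ℝ, (t < cost v (fz p) {Fin.ofNat 8 i}ᶜ + cost v (fz q) univ ∨
      t < (1 / 2) * (cost v (fz p) {Fin.ofNat 8 i}ᶜ + cost v (fz q) univ) +
        cost v (fz r) univ) →
    ∃ y, t < y ∧ ∃ f ∈ pD p q r i, Rep (xx v w lam δ) f (840 * y) := by
  intro t ht
  have vp := rep_V (v := v) (w := w) (lam := lam) (δ := δ) p 255 hp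
  have vi := rep_V (v := v) (w := w) (lam := lam) (δ := δ) p (2 ^ i) hp
  have vq := rep_V (v := v) (w := w) (lam := lam) (δ := δ) q 255 hq
  have vr := rep_V (v := v) (w := w) (lam := lam) (δ := δ) r 255 hr
  rw [st_255] at vp vq vr
  rw [st_pow hi] at vi
  have e : cost v (fz p) univ - cost v (fz p) {Fin.ofNat 8 i} =
      cost v (fz p) {Fin.ofNat 8 i}ᶜ := by
    have h := Finset.sum_add_sum_compl {Fin.ofNat 8 i} (fun i => v (fz p) i)
    unfold cost
    linarith
  have c := rep_add (rep_sub vp vi) vq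
  rw [e] at c
  rcases ht with h | h
  · refine ⟨_, h, _, List.mem_cons_self, rep_congr (rep_mul 840 c) ?_⟩
    push_cast
    ring
  · refine ⟨_, h, _, List.mem_cons_of_mem _ List.mem_cons_self,
      rep_congr (rep_add (rep_mul 420 c) (rep_mul 840 vr)) ?_⟩
    push_cast
    ring

theorem fz_bif (r j : ℕ) (hr : r < 3) :
    fz (bif Nat.beq r 0 then 0 else j) = if fz r = 0 then 0 else fz j := by
  interval_cases r
  · rfl
  · rw [if_neg (by decide)]
    rfl
  · rw [if_neg (by decide)]
    rfl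

theorem bif_lt (r j : ℕ) (hj : j < 3) : (bif Nat.beq r 0 then 0 else j) < 3 := by
  cases Nat.beq r 0
  · exact hj
  · exact Nat.zero_lt_succ _

theorem okop_valid {t k₁ S₁ k₂ S₂ mu : ℕ} (h : okop t k₁ S₁ k₂ S₂ mu = true) :
    (opt t k₁ S₁ k₂ S₂ mu).Valid := by
  unfold okop at h
  unfold opt
  cases h0 : Nat.beq t 0
  · cases h1 : Nat.beq t 1
    · rw [h0, h1] at h
      have n0 : t ≠ 0 := by
        rintro rfl
        exact absurd h0 (by decide)
      have n1 : t ≠ 1 := by
        rintro rfl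
        exact absurd h1 (by decide)
      rw [if_neg n0, if_neg n1]
      simp only [cond_false, Bool.and_eq_true] at h
      obtain ⟨⟨g1, g2⟩, g3⟩ := h
      refine ⟨(goodk g1).1, (goodk g1).2.trans (by norm_num), good_of g1, (goodk g2).1,
        (goodk g2).2.trans (by norm_num), good_of g2, ?_⟩
      rw [Finset.disjoint_left]
      intro i hi hi'
      have g4 := all8_iff g3 i
      rw [(mem_filter.1 hi).2, (mem_filter.1 hi').2] at g4
      exact absurd g4 (by decide)
    · rw [h0, h1] at h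
      have n0 : t = 1 := Nat.eq_of_beq_eq_true h1
      subst n0
      simp only [cond_false, cond_true, Bool.and_eq_true] at h
      obtain ⟨⟨g1, g2⟩, g3⟩ := h
      rw [if_neg (by norm_num), if_pos rfl]
      refine ⟨(goodk g1).1, (goodk g1).2.trans (by norm_num), good_of g1, (okk_of g2).1, ?_⟩
      intro i hi
      have g4 := all8_iff g3 i
      rw [Bool.or_eq_true, (mem_filter.1 hi).2] at g4
      rcases g4 with g4 | g4
      · exact absurd g4 (by decide)
      · exact Nat.le_of_ble_eq_true g4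
  · have n0 : t = 0 := Nat.eq_of_beq_eq_true h0
    subst n0
    exact trivial

theorem cov_op (hw : Wt v w) {r j F t k₁ S₁ k₂ S₂ mu : ℕ} (hr : r < 3) (hj : j < 3)
    (h : okop t k₁ S₁ k₂ S₂ mu = true) :
    Cov (xx v w lam δ) 420 (opP r j F t k₁ S₁ k₂ S₂ mu)
      ((opt t k₁ S₁ k₂ S₂ mu).pieces v w (fz r) (fz j) (st F)) := by
  unfold okop at h
  unfold opt opP
  have vj := rep_V (v := v) (w := w) (lam := lam) (δ := δ) j 255 hj
  have vc1 := rep_VC (v := v) (w := w) (lam := lam) (δ := δ) j S₁ hj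
  have vc2 := rep_VC (v := v) (w := w) (lam := lam) (δ := δ) j S₂ hj
  have wr := rep_W (lam := lam) (δ := δ) hw r F hr
  have w1 := rep_W (lam := lam) (δ := δ) hw j S₁ hj
  have w2 := rep_W (lam := lam) (δ := δ) hw j S₂ hj
  have wu := rep_W (lam := lam) (δ := δ) hw (bif Nat.beq r 0 then 0 else j) 255 (bif_lt r j hj)
  have ht := rep_tn (lam := lam) (δ := δ) hw r hr
  rw [st_255] at vj wu
  rw [fz_bif r j hr] at wu
  cases h0 : Nat.beq t 0
  · cases h1 : Nat.beq t 1
    · rw [h0, h1] at h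
      have n0 : t ≠ 0 := by
        rintro rfl
        exact absurd h0 (by decide)
      have n1 : t ≠ 1 := by
        rintro rfl
        exact absurd h1 (by decide)
      rw [if_neg n0, if_neg n1]
      simp only [cond_false, Bool.and_eq_true] at h ⊢
      obtain ⟨⟨g1, g2⟩, g3⟩ := h
      have k1 := goodk g1
      have k2 := goodk g2
      have hk1 : (0 : ℝ) < k₁ := by exact_mod_cast k1.1
      have hk2 : (0 : ℝ) < k₂ := by exact_mod_cast k2.1
      have c := rep_mul 420 (rep_add vc1 vc2)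
      have a := rep_sub (rep_mul (420 / k₁) w1) (rep_mul 210 (rep_add wr ht))
      have b := rep_sub (rep_mul (420 / k₂) w2) (rep_mul 210 (rep_add wr ht))
      rw [div_ok k1 (by decide)] at a
      rw [div_ok k2 (by decide)] at b
      intro y hy
      simp only [Opt.pieces, List.mem_cons, List.not_mem_nil, or_false] at hy
      rcases hy with rfl | rfl | rfl | rfl
      · refine ⟨_, List.mem_cons_self, rep_congr c ?_⟩
        push_cast
        ring
      · refine ⟨_, List.mem_cons_of_mem _ List.mem_cons_self, rep_congr (rep_add c a) ?_⟩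
        push_cast
        field_simp
        ring
      · refine ⟨_, List.mem_cons_of_mem _ (List.mem_cons_of_mem _ List.mem_cons_self),
          rep_congr (rep_add c b) ?_⟩
        push_cast
        field_simp
        ring
      · refine ⟨_, List.mem_cons_of_mem _ (List.mem_cons_of_mem _
          (List.mem_cons_of_mem _ List.mem_cons_self)), rep_congr (rep_add (rep_add c a) b) ?_⟩
        push_cast
        field_simp
        ring
    · rw [h0, h1] at h
      have n0 : t = 1 := Nat.eq_of_beq_eq_true h1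
      subst n0
      simp only [cond_false, cond_true, Bool.and_eq_true] at h ⊢
      obtain ⟨⟨g1, g2⟩, g3⟩ := h
      have k1 := goodk g1
      have k2 := okk_of g2
      have hk1 : (0 : ℝ) < k₁ := by exact_mod_cast k1.1
      have hk2 : (0 : ℝ) < mu := by exact_mod_cast k2.1
      rw [if_neg (by norm_num), if_true]
      have a := rep_add (rep_mul 840 vc1) (rep_mul (420 / mu) (rep_sub wu wr))
      have b := rep_sub (rep_mul (840 / k₁) w1) (rep_mul 420 (rep_add wr ht))
      rw [div_ok k2 (by decide)] at a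
      rw [div_ok k1 (by decide)] at b
      intro y hy
      simp only [Opt.pieces, List.mem_cons, List.not_mem_nil, or_false] at hy
      rcases hy with rfl | rfl
      · refine ⟨_, List.mem_cons_self, rep_congr a ?_⟩
        push_cast
        field_simp
        ring
      · refine ⟨_, List.mem_cons_of_mem _ List.mem_cons_self, rep_congr (rep_add a b) ?_⟩
        push_cast
        field_simp
        ring
  · have n0 : t = 0 := Nat.eq_of_beq_eq_true h0
    subst n0
    intro y hy
    simp only [if_true, Opt.pieces, List.mem_cons, List.not_mem_nil, or_false] at hy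
    subst hy
    refine ⟨_, List.mem_cons_self, rep_congr (rep_mul 840 vj) ?_⟩
    push_cast
    ring

theorem cov_E (p q r F : ℕ) (hp : p < 3) (hq : q < 3) (hr : r < 3) (op oq : Opt 7)
    (a b : List Fm)
    (ha : Cov (xx v w lam δ) 420 a (op.pieces v w (fz r) (fz p) (st F)))
    (hb : Cov (xx v w lam δ) 420 b (oq.pieces v w (fz r) (fz q) (st F))) :
    Cov (xx v w lam δ) 840 (pE p q r F a b)
      ((Bnd.E (K := 7) (fz p) (fz q) (fz r) (st F) op oq).pieces v w) := by
  have vr := rep_V (v := v) (w := w) (lam := lam) (δ := δ) r F hr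
  have vq := rep_V (v := v) (w := w) (lam := lam) (δ := δ) q 255 hq
  rw [st_255] at vq
  intro y hy
  simp only [Bnd.pieces, List.mem_cons, List.mem_append, List.mem_map, List.mem_flatMap] at hy
  unfold pE
  rcases hy with rfl | ⟨z, hz, rfl⟩ | ⟨z, hz, u, hu, rfl⟩
  · refine ⟨_, List.mem_cons_self, rep_congr (rep_add (rep_mul 840 vr) (rep_mul 840 vq)) ?_⟩
    push_cast
    ring
  · obtain ⟨f, hf, hr'⟩ := ha z hz
    refine ⟨_, List.mem_cons_of_mem _ (List.mem_append_left _ (List.mem_map_of_mem hf)),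
      rep_congr (rep_add (rep_mul 840 vr) (rep_add hr' (rep_mul 420 vq))) ?_⟩
    push_cast
    ring
  · obtain ⟨f, hf, hr'⟩ := ha z hz
    obtain ⟨g, hg, hs'⟩ := hb u hu
    refine ⟨_, List.mem_cons_of_mem _ (List.mem_append_right _
      (List.mem_flatMap.2 ⟨f, hf, List.mem_map_of_mem hg⟩)),
      rep_congr (rep_add (rep_mul 840 vr) (rep_add hr' hs')) ?_⟩
    push_cast
    ring

end pieces

end Pool.Agent.W221.ABC7
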