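import Mathlib
import Pool.Agent.W221.ABC.Chk7b

/-!
# abc cells: the run of a certificate and its soundness
-/

namespace Pool.Agent.W221.ABC7

open Finset Pool.Agent.H785R2.ABC Fm

/-- parameters: `θ = (na λ ± nb) / den` for `lon / lod ≤ λ ≤ hin / hid` -/
structure Prm where
  na : ℕ
  nb : ℕ
  den : ℕ
  neg : Bool
  lon : ℕ
  lod : ℕ
  hin : ℕ
  hid : ℕ

/-- the exponent -/
noncomputable def Prm.th (P : Prm) (lam : ℝ) : ℝ :=
  if P.neg = true then ((P.na : ℝ) * lam - P.nb) / P.den else ((P.na : ℝ) * lam + P.nb) / P.den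

def tf (P : Prm) : Fm :=
  let a := add (mul (Nat.mul 840 P.na) (un 27)) (mul (Nat.mul 840000 P.den) (un 28))
  let b := mul (Nat.mul 840 P.nb) (un 29)
  bif P.neg then sub a b else add a b

def rowT (P : Prm) (f : Fm) : Fm := sub (mul P.den f) (tf P)

def baseR (P : Prm) : List Fm :=
  [sub (un 29) (W 0 255), sub (un 29) (W 1 255), add (sub (W 1 255) (un 29)) (un 28),
    sub (un 29) (W 2 255), add (sub (W 2 255) (un 29)) (un 28),
    sub (un 27) (add (V 0 255) (add (V 1 255) (V 2 255))), sub (V 1 255) (V 2 255),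
    sub (mul P.lod (un 27)) (mul P.lon (un 29)), sub (mul P.hin (un 29)) (mul P.hid (un 27))]

def dg (n i : ℕ) : ℕ := Nat.mod (Nat.div n (Nat.pow 256 i)) 256

def validM (m : ℕ) : Bool :=
  perm (dg m 0) (dg m 1) (dg m 2) && goodb (dg m 3) (dg m 4) && goodb (dg m 3) (dg m 5)

def validS (m : ℕ) : Bool := perm (dg m 0) (dg m 1) (dg m 2)

def validD (m : ℕ) : Bool :=
  perm (dg m 0) (dg m 1) (dg m 2) && Nat.ble 1 (dg m 3) && Nat.blt (dg m 3) 7

def validE (m : ℕ) : Bool :=
  perm (dg m 0) (dg m 1) (dg m 2) &&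
    okop (dg m 4) (dg m 5) (dg m 6) (dg m 7) (dg m 8) (dg m 9) &&
    okop (dg m 10) (dg m 11) (dg m 12) (dg m 13) (dg m 14) (dg m 15)

def valid (kd m : ℕ) : Bool :=
  bif Nat.beq kd 1 then validM m else
  bif Nat.beq kd 2 then validS m else
  bif Nat.beq kd 3 then validD m else validE m

def pcs (kd m : ℕ) : List Fm :=
  bif Nat.beq kd 1 then
    pM (dg m 0) (dg m 1) (dg m 2) (dg m 3) (dg m 4) (dg m 5) (dg m 6) else
  bif Nat.beq kd 2 then pS (dg m 0) (dg m 1) (dg m 2) (dg m 3) else
  bif Nat.beq kd 3 then pD (dg m 0) (dg m 1) (dg m 2) (dg m 3) else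
    pE (dg m 0) (dg m 1) (dg m 2) (dg m 3)
      (opP (dg m 2) (dg m 0) (dg m 3) (dg m 4) (dg m 5) (dg m 6) (dg m 7) (dg m 8) (dg m 9))
      (opP (dg m 2) (dg m 1) (dg m 3) (dg m 10) (dg m 11) (dg m 12) (dg m 13) (dg m 14)
        (dg m 15))

/-- new goals in front of the old ones -/
def expand (P : Prm) (g : List Fm) (gs : List (List Fm)) : List Fm → List (List Fm)
  | [] => gs
  | f :: fs => (rowT P f :: g) :: expand P g gs fs

/-- the run of a certificate: a list of codes against a stack of goals -/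
def run (P : Prm) : List ℕ → List (List Fm) → Bool
  | [], gs => gs.isEmpty
  | n :: ns, gs => match gs with
    | [] => false
    | g :: gs => bif Nat.beq (Nat.mod n 8) 0 then leafOk (baseR P) g (Nat.div n 8) && run P ns gs
      else valid (Nat.mod n 8) (Nat.div n 8) &&
        run P ns (expand P g gs (pcs (Nat.mod n 8) (Nat.div n 8)))

section sound

variable {v w : Fin 3 → Fin 8 → ℝ} {lam δ t : ℝ}

theorem node_sound (hw : Wt v w) (hf : Fail v w t) (kd m : ℕ) (h : valid kd m = true) :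
    ∃ y, t < y ∧ ∃ f ∈ pcs kd m, Rep (xx v w lam δ) f (840 * y) := by
  unfold valid at h
  unfold pcs
  cases h1 : Nat.beq kd 1
  · cases h2 : Nat.beq kd 2
    · cases h3 : Nat.beq kd 3
      · rw [h1, h2, h3] at h
        simp only [cond_false] at h ⊢
        unfold validE at h
        rw [Bool.and_eq_true, Bool.and_eq_true] at h
        obtain ⟨⟨g1, g2⟩, g3⟩ := h
        obtain ⟨hp, hq, hr, n1, n2, n3⟩ := perm_of g1
        obtain ⟨y, hy, hty⟩ := hf.E _ _ _ n1 n2 n3 (st (dg m 3)) _ _ (okop_valid g2)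
          (okop_valid g3)
        exact ⟨y, hty, cov_E _ _ _ _ hp hq hr _ _ _ _ (cov_op hw hr hp g2) (cov_op hw hr hq g3)
          y hy⟩
      · rw [h1, h2, h3] at h
        simp only [cond_false, cond_true] at h ⊢
        unfold validD at h
        rw [Bool.and_eq_true, Bool.and_eq_true] at h
        obtain ⟨⟨g1, g2⟩, g3⟩ := h
        obtain ⟨hp, hq, hr, n1, n2, n3⟩ := perm_of g1
        have i1 : 1 ≤ dg m 3 := Nat.le_of_ble_eq_true g2
        have i2 : dg m 3 < 7 := Nat.le_of_ble_eq_true g3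
        have i3 : ((Fin.ofNat 8 (dg m 3) : Fin 8) : ℕ) = dg m 3 :=
          Nat.mod_eq_of_lt (by omega)
        exact cov_D hp hq hr (by omega) t
          (hf.D _ _ _ n1 n2 n3 (Fin.ofNat 8 (dg m 3)) (by omega) (by omega))
    · rw [h1, h2] at h
      simp only [cond_false, cond_true] at h ⊢
      obtain ⟨hp, hq, hr, n1, n2, n3⟩ := perm_of h
      exact cov_S hw hp hq hr t (hf.S _ _ _ n1 n2 n3 _)
  · rw [h1] at h
    simp only [cond_true] at h ⊢
    unfold validM at h
    rw [Bool.and_eq_true, Bool.and_eq_true] at h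
    obtain ⟨⟨g1, g2⟩, g3⟩ := h
    obtain ⟨hp, hq, hr, n1, n2, n3⟩ := perm_of g1
    have k1 := goodk g2
    have hc := cov_M (lam := lam) (δ := δ) hw (Sp := dg m 4) (Sq := dg m 5) (F := dg m 6)
      hp hq hr k1
    rcases hf.M _ _ _ n1 n2 n3 (dg m 3) k1.1 (k1.2.trans (by norm_num)) _ _ (st (dg m 6)) (good_of g2) (good_of g3)
      with h5 | h5
    · exact ⟨_, h5, hc _ (by simp [Bnd.pieces])⟩
    · exact ⟨_, h5, hc _ (by simp [Bnd.pieces])⟩

theorem rep_tf (P : Prm) (hd : 0 < P.den) :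
    Rep (xx v w lam δ) (tf P) (840 * P.den * (P.th lam + 1000 * δ)) := by
  have h27 := rep_un (x := xx v w lam δ) 27 (by norm_num)
  have h28 := rep_un (x := xx v w lam δ) 28 (by norm_num)
  have h29 := rep_un (x := xx v w lam δ) 29 (by norm_num)
  rw [xx_27] at h27
  rw [xx_28] at h28
  rw [xx_29] at h29
  have a := rep_add (rep_mul (840 * P.na) h27) (rep_mul (840000 * P.den) h28)
  have b := rep_mul (840 * P.nb) h29
  have hd' : (P.den : ℝ) ≠ 0 := by positivity
  unfold tf Prm.th
  cases hn : P.neg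
  · refine rep_congr (rep_add a b) ?_
    simp only [Bool.false_eq_true, if_false]
    push_cast
    field_simp
    ring
  · refine rep_congr (rep_sub a b) ?_
    simp only [if_true]
    push_cast
    field_simp
    ring

theorem expand_mem (P : Prm) (g : List Fm) (gs : List (List Fm)) (l : List Fm) (f : Fm)
    (hf : f ∈ l) : (rowT P f :: g) ∈ expand P g gs l := by
  induction l with
  | nil => exact absurd hf List.not_mem_nil
  | cons a l ih =>
    rcases List.mem_cons.1 hf with rfl | h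
    · exact List.mem_cons_self
    · exact List.mem_cons_of_mem _ (ih h)

theorem expand_mem' (P : Prm) (g : List Fm) (gs : List (List Fm)) (l : List Fm) (g' : List Fm)
    (hg : g' ∈ gs) : g' ∈ expand P g gs l := by
  induction l with
  | nil => exact hg
  | cons a l ih => exact List.mem_cons_of_mem _ ih

/-- a goal: the rows of the path cannot all be positive -/
def Goal (x : ℕ → ℝ) (g : List Fm) : Prop := (∀ f ∈ g, ∃ r, Rep x f r ∧ 0 < r) → False

theorem run_sound (P : Prm) (hd : 0 < P.den) (hx : ∀ j, 0 ≤ xx v w lam δ j) (hw : Wt v w)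
    (hb : ∀ f ∈ baseR P, ∃ r, Rep (xx v w lam δ) f r ∧ 0 ≤ r)
    (hf : Fail v w (P.th lam + 1000 * δ)) : ∀ (ns : List ℕ) (gs : List (List Fm)),
    run P ns gs = true → ∀ g ∈ gs, Goal (xx v w lam δ) g := by
  intro ns
  induction ns with
  | nil =>
    intro gs h g hg
    have h' : gs.isEmpty = true := h
    rw [List.isEmpty_iff] at h'
    rw [h'] at hg
    exact absurd hg List.not_mem_nil
  | cons n ns ih =>
    intro gs h g hg
    cases gs with
    | nil => exact absurd hg List.not_mem_nil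
    | cons g₀ gs =>
      have h' : (bif Nat.beq (Nat.mod n 8) 0 then
          leafOk (baseR P) g₀ (Nat.div n 8) && run P ns gs
        else valid (Nat.mod n 8) (Nat.div n 8) &&
          run P ns (expand P g₀ gs (pcs (Nat.mod n 8) (Nat.div n 8)))) = true := h
      cases hk : Nat.beq (Nat.mod n 8) 0
      · rw [hk, cond_false, Bool.and_eq_true] at h'
        obtain ⟨h1, h2⟩ := h'
        have h3 := ih _ h2
        rcases List.mem_cons.1 hg with rfl | hg'
        · intro hrows
          obtain ⟨y, hy, f, hfm, hrep⟩ := node_sound (lam := lam) (δ := δ) hw hf _ _ h1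
          refine h3 _ (expand_mem P g gs _ f hfm) ?_
          intro f' hf'
          rcases List.mem_cons.1 hf' with rfl | hf''
          · refine ⟨_, rep_sub (rep_mul P.den hrep) (rep_tf P hd), ?_⟩
            have hd' : (0 : ℝ) < P.den := by exact_mod_cast hd
            nlinarith
          · exact hrows f' hf''
        · exact h3 g (expand_mem' P g₀ gs _ g hg')
      · rw [hk, cond_true, Bool.and_eq_true] at h'
        obtain ⟨h1, h2⟩ := h'
        rcases List.mem_cons.1 hg with rfl | hg'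
        · intro hrows
          exact leafOk_sound hx _ _ _ hb hrows h1
        · exact ih gs h2 g hg'

theorem base_sound (P : Prm) (hP : Poly 7 lam δ v w) (hw : Wt v w)
    (hle : cost v 2 univ ≤ cost v 1 univ) (hlo : (P.lon : ℝ) ≤ P.lod * lam)
    (hhi : P.hid * lam ≤ P.hin) :
    ∀ f ∈ baseR P, ∃ r, Rep (xx v w lam δ) f r ∧ 0 ≤ r := by
  have h27 := rep_un (x := xx v w lam δ) 27 (by norm_num)
  have h28 := rep_un (x := xx v w lam δ) 28 (by norm_num)
  have h29 := rep_un (x := xx v w lam δ) 29 (by norm_num)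
  rw [xx_27] at h27
  rw [xx_28] at h28
  rw [xx_29] at h29
  have w0 := rep_W (lam := lam) (δ := δ) hw 0 255 (by norm_num)
  have w1 := rep_W (lam := lam) (δ := δ) hw 1 255 (by norm_num)
  have w2 := rep_W (lam := lam) (δ := δ) hw 2 255 (by norm_num)
  have v0 := rep_V (v := v) (w := w) (lam := lam) (δ := δ) 0 255 (by norm_num)
  have v1 := rep_V (v := v) (w := w) (lam := lam) (δ := δ) 1 255 (by norm_num)
  have v2 := rep_V (v := v) (w := w) (lam := lam) (δ := δ) 2 255 (by norm_num)
  rw [st_255] at w0 w1 w2 v0 v1 v2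
  have f0 : fz 0 = 0 := rfl
  have f1 : fz 1 = 1 := rfl
  have f2 : fz 2 = 2 := rfl
  rw [f0] at w0 v0
  rw [f1] at w1 v1
  rw [f2] at w2 v2
  intro f hf
  simp only [baseR, List.mem_cons, List.not_mem_nil, or_false] at hf
  have q0 := hP.w0
  have q1 := hP.w1
  have q1' := hP.w1'
  have q2 := hP.w2
  have q2' := hP.w2'
  have qt := hP.tot
  rcases hf with rfl | rfl | rfl | rfl | rfl | rfl | rfl | rfl | rfl
  · exact ⟨_, rep_sub h29 w0, by linarith⟩
  · exact ⟨_, rep_sub h29 w1, by linarith⟩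
  · exact ⟨_, rep_add (rep_sub w1 h29) h28, by linarith⟩
  · exact ⟨_, rep_sub h29 w2, by linarith⟩
  · exact ⟨_, rep_add (rep_sub w2 h29) h28, by linarith⟩
  · exact ⟨_, rep_sub h27 (rep_add v0 (rep_add v1 v2)), by linarith⟩
  · exact ⟨_, rep_sub v1 v2, by linarith⟩
  · exact ⟨_, rep_sub (rep_mul P.lod h27) (rep_mul P.lon h29), by linarith⟩
  · exact ⟨_, rep_sub (rep_mul P.hin h29) (rep_mul P.hid h27), by linarith⟩

theorem xx_nonneg (hP : Poly 7 lam δ v w) (hl : 0 ≤ lam) (hδ : 0 ≤ δ) (j : ℕ) :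
    0 ≤ xx v w lam δ j := by
  unfold xx
  split_ifs
  · exact hP.v_nonneg _ _
  · have := hP.w_last (fz (j - 24))
    have e : (Fin.last 7 : Fin 8) = 7 := rfl
    rw [e] at this
    norm_num at this
    linarith
  · exact hl
  · exact hδ
  · norm_num
  · exact le_rfl

/-- exchange of the sides `1` and `2` -/
def sw (j : Fin 3) : Fin 3 := ![0, 2, 1] j

theorem sw_inj {i j : Fin 3} (h : i ≠ j) : sw i ≠ sw j := by
  revert i j; decide

theorem thn_sw (w : Fin 3 → Fin 8 → ℝ) (r : Fin 3) : thn (fun j => w (sw j)) r = thn w (sw r) := by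
  unfold thn
  fin_cases r
  · simp [sw, cost]
  · simp [sw]
  · simp [sw]

theorem ite_sw (r j : Fin 3) : sw (if r = 0 then 0 else j) = if sw r = 0 then 0 else sw j := by
  revert r j; decide

theorem op_sw (v w : Fin 3 → Fin 8 → ℝ) (r j : Fin 3) (F : Finset (Fin 8)) (o : Opt 7) :
    o.pieces (fun j => v (sw j)) (fun j => w (sw j)) r j F =
      o.pieces v w (sw r) (sw j) F := by
  have e : ∀ (u : Fin 3 → Fin 8 → ℝ) (i : Fin 3) (S : Finset (Fin 8)),
      cost (fun j => u (sw j)) i S = cost u (sw i) S := fun _ _ _ => rfl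
  cases o with
  | zero => simp only [Opt.pieces, e]
  | one k μ S => simp only [Opt.pieces, e, thn_sw, ite_sw]
  | two k₁ S₁ k₂ S₂ => simp only [Opt.pieces, e, thn_sw]

theorem fail_sw {t : ℝ} (h : Fail v w t) :
    Fail (fun j => v (sw j)) (fun j => w (sw j)) t := by
  refine ⟨?_, ?_, ?_, ?_⟩
  · intro p q r h1 h2 h3 k hk1 hk2 Sp Sq F hp hq
    rw [thn_sw]
    exact h.M (sw p) (sw q) (sw r) (sw_inj h1) (sw_inj h2) (sw_inj h3) k hk1 hk2 Sp Sq F hp hq
  · intro p q r h1 h2 h3 F
    exact h.S (sw p) (sw q) (sw r) (sw_inj h1) (sw_inj h2) (sw_inj h3) F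
  · intro p q r h1 h2 h3 i hi1 hi2
    exact h.D (sw p) (sw q) (sw r) (sw_inj h1) (sw_inj h2) (sw_inj h3) i hi1 hi2
  · intro p q r h1 h2 h3 F op oq hop hoq
    have := h.E (sw p) (sw q) (sw r) (sw_inj h1) (sw_inj h2) (sw_inj h3) F op oq hop hoq
    simp only [Bnd.pieces, op_sw] at this ⊢
    exact this

/-- a successful run shows that not all bounds fail -/
theorem no_fail7 (P : Prm) (ns : List ℕ) (hrun : run P ns [[]] = true) (hd : 0 < P.den)
    (lam δ : ℝ) (hl : 0 ≤ lam) (hδ : 0 ≤ δ) (hlo : (P.lon : ℝ) ≤ P.lod * lam)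
    (hhi : P.hid * lam ≤ P.hin) (v w : Fin 3 → Fin 8 → ℝ) (hP : Poly 7 lam δ v w)
    (h : Fail v w (P.th lam + 1000 * δ)) : False := by
  have key : ∀ v w : Fin 3 → Fin 8 → ℝ, Poly 7 lam δ v w → Fail v w (P.th lam + 1000 * δ) →
      cost v 2 univ ≤ cost v 1 univ → False := by
    intro v w hP h hle
    exact run_sound P hd (xx_nonneg hP hl hδ) (wt_of hP) (base_sound P hP (wt_of hP) hle hlo hhi)
      h ns [[]] hrun [] List.mem_cons_self (fun f hf => absurd hf List.not_mem_nil)
  rcases le_total (cost v 2 univ) (cost v 1 univ) with hc | hc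
  · exact key v w hP h hc
  · refine key (fun j => v (sw j)) (fun j => w (sw j)) ?_ (fail_sw h) hc
    exact ⟨fun j i => hP.v_nonneg _ i, fun j i hi => hP.w_eq _ i hi, fun j => hP.w_last _,
      hP.w0, hP.w2, hP.w2', hP.w1, hP.w1', by
        have := hP.tot
        have e : ∀ j, cost (fun j => v (sw j)) j univ = cost v (sw j) univ := fun j => rfl
        rw [e, e, e]
        change cost v 0 univ + cost v 2 univ + cost v 1 univ ≤ lam
        linarith⟩

end sound

end Pool.Agent.W221.ABC7
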