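import Mathlib
import Pool.Agent.W221.ABC.Chk7c

/-!
# abc cells: certificate (generated), 16/9 ≤ λ ≤ 2/1, exponent (0 λ + 1)/1
-/

namespace Pool.Agent.W221.ABC7.CS8

def prm : Prm := ⟨0, 1, 1, false, 16, 9, 2, 1⟩

def d0 : List ℕ := [
  0x7f0380808100801,
  0x7f0105010080011,
  0x4008000000000001a40013b69050,
  0x2008000000000001a40000069050,
  0x7f0080808001009,
  0x7f0505010001009,
  0x7f0105010100801,
  0x7f0505010080011,
  0x60040080100000000000001a4000690d2058,
  0x200000008000000000001a40000069050,
  0x80000800000000000000001a469050,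
  0x2008000000000001a4001a469050,
  0xe9000001a4000000000000050]

def dat : List ℕ :=
  d0

set_option maxRecDepth 100000 in
theorem run_ok : run prm dat [[]] = true := by decide +kernel

end Pool.Agent.W221.ABC7.CS8
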