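import Mathlib
import Pool.Agent.W221.ABC.Chk7c

/-!
# abc cells: certificate (generated), 2/1 ≤ λ ≤ 3/1, exponent (1 λ - 1)/1
-/

namespace Pool.Agent.W221.ABC7.CS9

def prm : Prm := ⟨1, 1, 1, true, 2, 1, 3, 1⟩

def d0 : List ℕ := [
  0x7f0080808080011,
  0x7f0501010100801,
  0x7f0505010001009,
  0x7f0101010080011,
  0x600100080040013b000000000006900001a40d2068,
  0x200000001001a4000000000d200000069058,
  0x400002001a4000348000d200034869058,
  0x802001a40003486900000034869058,
  0x80000001a4000006900000050]

def dat : List ℕ :=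
  d0

set_option maxRecDepth 100000 in
theorem run_ok : run prm dat [[]] = true := by decide +kernel

end Pool.Agent.W221.ABC7.CS9
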