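import Mathlib
import Pool.Agent.H705R2.ABC.Cel
import Pool.Agent.H705R2.ABC.Num
import Pool.Agent.W221.ABC.Fail7

/-!
# abc: the bound for cells from the failure of all bounds being impossible (general level)
-/

namespace Pool.Agent.W221.ABC7

open Finset Pool.Agent.H785R2.ABC Pool.Agent.H785R2.ABC.Bridge Pool.Agent.H705R2.ABC

/-- the fine classes lying over a set of coarse classes -/
def lift (K : ℕ) (F : Finset (Fin 8)) : Finset (Fin (K + 1)) :=
  univ.filter fun i => (⟨min (i : ℕ) 7, by omega⟩ : Fin 8) ∈ F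

theorem pf_lift (K : ℕ) (hK : 7 ≤ K) (n : ℕ) (F : Finset (Fin 8)) :
    pf K n (lift K F) = pf 7 n F := by
  unfold pf lift
  ext p
  simp only [mem_filter, mem_univ, true_and]
  have e : (⟨min ((cls K (n.factorization p) : Fin (K + 1)) : ℕ) 7, by omega⟩ : Fin 8) =
      cls 7 (n.factorization p) := by
    apply Fin.ext
    simp only [cls]
    omega
  rw [e]

theorem rd_lift (K : ℕ) (hK : 7 ≤ K) (n : ℕ) (F : Finset (Fin 8)) :
    rd K n (lift K F) = rd 7 n F := by
  unfold rd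
  rw [pf_lift K hK]

theorem part_lift (K : ℕ) (hK : 7 ≤ K) (n : ℕ) (F : Finset (Fin 8)) :
    part K n (lift K F) = part 7 n F := by
  unfold part
  rw [pf_lift K hK]

theorem lift_univ (K : ℕ) : lift K univ = univ := by
  unfold lift
  simp

theorem cost_eq_of {c x y : ℝ} (hc : 1 < c) (h : c ^ x = c ^ y) : x = y := by
  have h1 := congrArg Real.log h
  rw [Real.log_rpow (by linarith), Real.log_rpow (by linarith)] at h1
  have h2 : 0 < Real.log c := Real.log_pos hc
  exact mul_right_cancel₀ h2.ne' h1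

theorem costV_lift (hF : Basics) (K : ℕ) (hK : 7 ≤ K) {s : ℕ × ℕ × ℕ}
    (h : IsABCTriple s.1 s.2.1 s.2.2) (j : Fin 3) (F : Finset (Fin 8)) :
    cost (expV K s) j (lift K F) = cost (expV 7 s) j F := by
  have hc : (2 : ℝ) ≤ s.2.2 := by exact_mod_cast two_le_c h
  apply cost_eq_of (c := (s.2.2 : ℝ)) (by linarith)
  rw [← rd_eq hF K h, ← rd_eq hF 7 h, rd_lift K hK]

theorem costW_lift (hF : Basics) (K : ℕ) (hK : 7 ≤ K) {s : ℕ × ℕ × ℕ}
    (h : IsABCTriple s.1 s.2.1 s.2.2) (j : Fin 3) (F : Finset (Fin 8)) :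
    cost (expW K s) j (lift K F) = cost (expW 7 s) j F := by
  have hc : (2 : ℝ) ≤ s.2.2 := by exact_mod_cast two_le_c h
  apply cost_eq_of (c := (s.2.2 : ℝ)) (by linarith)
  rw [← part_eq hF K h, ← part_eq hF 7 h, part_lift K hK]

theorem cell_bound7 (hF : Basics) (hP : StmtPoly) (hM : StmtMcell) (hE : StmtEst)
    (hD : StmtDc) (hB : StmtBridge) (lam θ : ℝ)
    (hno : ∀ δ : ℝ, 0 ≤ δ → ∀ v w : Fin 3 → Fin 8 → ℝ, Poly 7 lam δ v w →
      Fail v w (θ + 1000 * δ) → False) : ∀ ε : ℝ, 0 < ε → ∃ (K : ℕ) (D : ℝ), 0 < D ∧ ∀ T : Finset (ℕ × ℕ × ℕ),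
    Cell K T → Cell 7 T →
    (∀ s ∈ T, (rad (s.1 * s.2.1 * s.2.2) : ℝ) ≤ (s.2.2 : ℝ) ^ lam) → ∀ s ∈ T,
    (T.card : ℝ) ≤ D * (s.2.2 : ℝ) ^ (θ + ε) := by
  intro ε hε
  set K : ℕ := max 7 ⌈2 / ε⌉₊ with hK
  have hK4 : 7 ≤ K := le_max_left _ _
  have hKε : 1 / ((K : ℝ) + 1) ≤ ε / 2 := by
    have h1 : 2 / ε ≤ (K : ℝ) := (Nat.le_ceil _).trans (by exact_mod_cast le_max_right _ _)
    rw [div_le_iff₀ hε] at h1
    rw [div_le_div_iff₀ (by positivity) (by norm_num)]
    nlinarith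
  obtain ⟨D₁, hD₁, H₁⟩ := hM 7 (ε / 2) (by positivity)
  obtain ⟨D₂, hD₂, H₂⟩ := hE K (ε / 2) (by positivity)
  obtain ⟨D₃, hD₃, H₃⟩ := hD 7 (ε / 2) (by positivity)
  obtain ⟨D₄, hD₄, H₄⟩ := hB 7 (ε / 2) (by positivity)
  refine ⟨K, 25 * (D₁ + D₂ + D₃ + D₄) * Real.exp (1000 * Real.log 2), by positivity, ?_⟩
  intro T hT hT4 hrad s hs
  have h := hT.abc s hs
  have hc2 : (2 : ℝ) ≤ s.2.2 := by exact_mod_cast two_le_c h
  have hc : (0 : ℝ) < s.2.2 := by linarith
  have hc1 : (1 : ℝ) ≤ s.2.2 := by linarith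
  have hlog : 0 < Real.log s.2.2 := Real.log_pos (by linarith)
  have hpoly := hP 7 lam s h (hT.le s hs) (hrad s hs)
  have hpolyK := hP K lam s h (hT.le s hs) (hrad s hs)
  have hδ : 0 ≤ Real.log 2 / Real.log s.2.2 :=
    div_nonneg (Real.log_nonneg (by norm_num)) hlog.le
  set δ : ℝ := Real.log 2 / Real.log s.2.2 with hδd
  by_contra hcon
  push Not at hcon
  have hEx : 0 < Real.exp (1000 * Real.log 2) := Real.exp_pos _
  set B : ℝ := Real.exp (1000 * Real.log 2) * (s.2.2 : ℝ) ^ (θ + ε / 2) with hB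
  have hB0 : 0 < B := mul_pos hEx (Real.rpow_pos_of_pos hc _)
  have hpw : ∀ y : ℝ, y ≤ θ + 1000 * δ + ε / 2 → (s.2.2 : ℝ) ^ y ≤ B := by
    intro y hy
    calc (s.2.2 : ℝ) ^ y ≤ (s.2.2 : ℝ) ^ ((θ + ε / 2) + 1000 * δ) :=
          Real.rpow_le_rpow_of_exponent_le hc1 (by linarith)
      _ = B := by
          rw [Real.rpow_add hc, mul_comm, hB]
          congr 1
          rw [Real.rpow_def_of_pos hc]
          congr 1
          rw [hδd]
          field_simp
  have hcε : 0 < (s.2.2 : ℝ) ^ (ε / 2) := Real.rpow_pos_of_pos hc _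
  have hfin : ∀ D : ℝ, 0 < D → D ≤ D₁ + D₂ + D₃ + D₄ → ∀ y : ℝ, y ≤ 25 * B →
      (T.card : ℝ) ≤ D * (s.2.2 : ℝ) ^ (ε / 2) * y → False := by
    intro D hD0 hDle y hy hcard
    have h1 : (T.card : ℝ) ≤ 25 * (D₁ + D₂ + D₃ + D₄) * Real.exp (1000 * Real.log 2) *
        (s.2.2 : ℝ) ^ (θ + ε) := by
      calc (T.card : ℝ) ≤ D * (s.2.2 : ℝ) ^ (ε / 2) * y := hcard
        _ ≤ D * (s.2.2 : ℝ) ^ (ε / 2) * (25 * B) :=
            mul_le_mul_of_nonneg_left hy (by positivity)
        _ ≤ (D₁ + D₂ + D₃ + D₄) * (s.2.2 : ℝ) ^ (ε / 2) * (25 * B) := by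
            apply mul_le_mul_of_nonneg_right _ (by positivity)
            exact mul_le_mul_of_nonneg_right hDle hcε.le
        _ = 25 * (D₁ + D₂ + D₃ + D₄) * Real.exp (1000 * Real.log 2) *
          (s.2.2 : ℝ) ^ (θ + ε) := by
            have e : (s.2.2 : ℝ) ^ (θ + ε) =
                (s.2.2 : ℝ) ^ (ε / 2) * (s.2.2 : ℝ) ^ (θ + ε / 2) := by
              rw [← Real.rpow_add hc]
              congr 1
              ring
            rw [e, hB]
            ring
    linarith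
  refine hno δ hδ (expV 7 s) (expW 7 s) hpoly ⟨?_, ?_, ?_, ?_⟩
  · intro p q r h1 h2 h3 k hk1 hk2 Sp Sq F hp hq
    by_contra hc'
    push Not at hc'
    obtain ⟨b1, b2⟩ := hc'
    refine hfin D₁ hD₁ (by linarith) _ ?_
      ((H₁ T hT4 s hs p q r h1 h2 h3 k hk1 hk2 Sp Sq F hp hq).trans (le_of_eq (mul_assoc _ _ _)))
    rw [rd_eq hF 7 h, rd_eq hF 7 h, rd_eq hF 7 h, part_eq hF 7 h, part_eq hF 7 h, part_eq hF 7 h,
      th_eq hF 7 h, ← Real.rpow_add hc, ← Real.rpow_add hc, ← Real.rpow_add hc,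
      ← Real.rpow_mul hc.le, ← Real.rpow_add hc, ← Real.rpow_sub hc, mul_add, mul_one,
      ← Real.rpow_add hc]
    have c1 := hpw _ (b1.trans (by linarith))
    have c2 := hpw (cost (expV 7 s) p Spᶜ + cost (expV 7 s) q Sqᶜ + cost (expV 7 s) r F +
      (-thn (expW 7 s) r + (cost (expW 7 s) p Sp + cost (expW 7 s) q Sq) * (1 / (k : ℝ)) -
        cost (expW 7 s) r F)) (by
          have : (cost (expW 7 s) p Sp + cost (expW 7 s) q Sq) * (1 / (k : ℝ)) =
            (cost (expW 7 s) p Sp + cost (expW 7 s) q Sq) / k := by ring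
          rw [this]
          linarith)
    linarith
  · intro p q r h1 h2 h3 F
    by_contra hc'
    push Not at hc'
    have hbound := H₂ T hT s hs p q r h1 h2 h3 (lift K F)
    rw [mul_assoc (D₂ * (s.2.2 : ℝ) ^ (ε / 2))] at hbound
    refine hfin D₂ hD₂ (by linarith) _ ?_ hbound
    have hs1 := Cel.side_le hF K h r p (lift K F)
    have hs2 := Cel.side_le hF K h r q (lift K F)
    rw [← lift_univ K, costV_lift hF K hK4 h, costW_lift hF K hK4 h] at hs1 hs2
    have hlp := NumM.last_le lam δ (expV K s) (expW K s) hpolyK p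
    have hlq := NumM.last_le lam δ (expV K s) (expW K s) hpolyK q
    set ap : ℝ := cost (expV 7 s) p univ + expV K s p (Fin.last K) +
      max 0 (3 / 2 * cost (expV 7 s) p univ - cost (expW 7 s) r F) with hap
    set aq : ℝ := cost (expV 7 s) q univ + expV K s q (Fin.last K) +
      max 0 (3 / 2 * cost (expV 7 s) q univ - cost (expW 7 s) r F) with haq
    have e1 : (side K s r p (lift K F) * side K s r q (lift K F)) ^ ((1 : ℝ) / 2) ≤
        2 * (s.2.2 : ℝ) ^ ((1 / 2) * (ap + aq)) := by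
      calc (side K s r p (lift K F) * side K s r q (lift K F)) ^ ((1 : ℝ) / 2) ≤
          ((2 * (s.2.2 : ℝ) ^ ap) * (2 * (s.2.2 : ℝ) ^ aq)) ^ ((1 : ℝ) / 2) := by
            apply Real.rpow_le_rpow
              (mul_nonneg (Cel.side_nonneg _ _ _ _ _) (Cel.side_nonneg _ _ _ _ _)) _ (by norm_num)
            exact mul_le_mul hs1 hs2 (Cel.side_nonneg _ _ _ _ _) (by positivity)
        _ = (2 ^ 2 * (s.2.2 : ℝ) ^ (ap + aq)) ^ ((1 : ℝ) / 2) := by
            rw [Real.rpow_add hc ap aq]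
            congr 1
            ring
        _ = 2 * (s.2.2 : ℝ) ^ ((1 / 2) * (ap + aq)) := by
            have e4 : ((2 : ℝ) ^ 2) ^ ((1 : ℝ) / 2) = 2 := by
              rw [← Real.sqrt_eq_rpow, Real.sqrt_sq (by norm_num)]
            rw [Real.mul_rpow (by positivity) (by positivity), ← Real.rpow_mul hc.le, e4,
              mul_comm (ap + aq)]
    have e2 : (rd K (num s r) (lift K F) : ℝ) = (s.2.2 : ℝ) ^ cost (expV 7 s) r F := by
      rw [rd_lift K hK4, rd_eq hF 7 h]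
    rw [e2]
    refine le_trans (b := 2 * B) ?_ (by linarith)
    calc (s.2.2 : ℝ) ^ cost (expV 7 s) r F *
          (side K s r p (lift K F) * side K s r q (lift K F)) ^ ((1 : ℝ) / 2)
        ≤ (s.2.2 : ℝ) ^ cost (expV 7 s) r F * (2 * (s.2.2 : ℝ) ^ ((1 / 2) * (ap + aq))) :=
          mul_le_mul_of_nonneg_left e1 (Real.rpow_nonneg hc.le _)
      _ = 2 * (s.2.2 : ℝ) ^ (cost (expV 7 s) r F + (1 / 2) * (ap + aq)) := by
          rw [Real.rpow_add hc]
          ring
      _ ≤ 2 * B := by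
          apply mul_le_mul_of_nonneg_left _ (by norm_num)
          apply hpw
          rw [hap, haq]
          linarith
  · intro p q r h1 h2 h3 i hi1 hi2
    by_contra hc'
    push Not at hc'
    obtain ⟨b1, b2⟩ := hc'
    refine hfin D₃ hD₃ (by linarith) _ ?_ (H₃ T hT4 s hs p q r h1 h2 h3 i hi1 hi2)
    rw [rd_eq hF 7 h, rd_eq hF 7 h, rd_eq hF 7 h, ← Real.rpow_add hc, ← Real.rpow_mul hc.le,
      ← Real.rpow_add hc]
    have c1 := hpw _ (b1.trans (by linarith))
    have c2 := hpw ((cost (expV 7 s) p {i}ᶜ + cost (expV 7 s) q univ) * (1 / 2) +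
      cost (expV 7 s) r univ) (by linarith)
    linarith
  · intro p q r h1 h2 h3 F op oq hop hoq
    by_contra hc'
    push Not at hc'
    refine hfin D₄ hD₄ (by linarith) _ ?_
      (H₄ T hT4 s hs (Bnd.E p q r F op oq) ⟨h1, h2, h3, hop, hoq⟩)
    have hlen : ∀ (j : Fin 3) (o : Opt 7), (o.pieces (expV 7 s) (expW 7 s) r j F).length ≤ 4 := by
      intro j o
      cases o <;> simp [Opt.pieces]
    have hlen2 : ((Bnd.E (K := 7) p q r F op oq).pieces (expV 7 s) (expW 7 s)).length ≤ 25 := by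
      have l1 := hlen p op
      have l2 := hlen q oq
      simp only [Bnd.pieces, List.length_cons, List.length_append, List.length_map,
        List.length_flatMap, List.map_const', List.sum_replicate, smul_eq_mul]
      nlinarith
    have h4 := List.sum_le_card_nsmul
      (((Bnd.E (K := 7) p q r F op oq).pieces (expV 7 s) (expW 7 s)).map
        fun x => (s.2.2 : ℝ) ^ x) B (by
        intro y hy
        obtain ⟨x, hx, rfl⟩ := List.mem_map.1 hy
        exact hpw x ((hc' x hx).trans (by linarith)))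
    rw [List.length_map, nsmul_eq_mul] at h4
    refine h4.trans (mul_le_mul_of_nonneg_right ?_ hB0.le)
    exact_mod_cast hlen2

end Pool.Agent.W221.ABC7
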