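import Mathlib
import Pool.Agent.H705R2.ABC.Defs

/-!
# The exponent of the abc count as a function of `λ`
-/

namespace Pool.Agent.W221.ABC7

/-- the exponent: `4λ/7` for `λ ≤ 2/3`, `(13λ+2)/28` for `2/3 ≤ λ ≤ 1`, `5(10λ-1)/84` for
`1 ≤ λ ≤ 3/2`, `(9λ-1)/15` for `3/2 ≤ λ ≤ 16/9`, `1` for `16/9 ≤ λ ≤ 2`, `λ-1` for `λ ≥ 2` -/
noncomputable def Fx (l : ℝ) : ℝ :=
  if l ≤ 2 / 3 then 4 * l / 7
  else if l ≤ 1 then (13 * l + 2) / 28
  else if l ≤ 3 / 2 then 5 * (10 * l - 1) / 84
  else if l ≤ 16 / 9 then (9 * l - 1) / 15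
  else if l ≤ 2 then 1
  else l - 1

theorem Fx_eq (l : ℝ) : Fx l = max (l - 1) (min 1 (max (min (4 * l / 7) ((13 * l + 2) / 28))
    (max (5 * (10 * l - 1) / 84) ((9 * l - 1) / 15)))) := by
  unfold Fx
  split_ifs with h1 h2 h3 h4 h5
  · rw [min_eq_left (by linarith : 4 * l / 7 ≤ (13 * l + 2) / 28),
      max_eq_left (a := 4 * l / 7) (max_le (by linarith) (by linarith)),
      min_eq_right (by linarith), max_eq_right (by linarith)]
  · push Not at h1
    rw [min_eq_right (by linarith : (13 * l + 2) / 28 ≤ 4 * l / 7),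
      max_eq_left (a := (13 * l + 2) / 28) (max_le (by linarith) (by linarith)),
      min_eq_right (by linarith), max_eq_right (by linarith)]
  · push Not at h1 h2
    rw [min_eq_right (by linarith : (13 * l + 2) / 28 ≤ 4 * l / 7),
      max_eq_left (a := 5 * (10 * l - 1) / 84) (b := (9 * l - 1) / 15) (by linarith),
      max_eq_right (a := (13 * l + 2) / 28) (b := 5 * (10 * l - 1) / 84) (by linarith),
      min_eq_right (by linarith), max_eq_right (by linarith)]
  · push Not at h1 h2 h3
    rw [min_eq_right (by linarith : (13 * l + 2) / 28 ≤ 4 * l / 7),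
      max_eq_right (a := 5 * (10 * l - 1) / 84) (b := (9 * l - 1) / 15) (by linarith),
      max_eq_right (a := (13 * l + 2) / 28) (b := (9 * l - 1) / 15) (by linarith), min_eq_right (by linarith), max_eq_right (by linarith)]
  · push Not at h1 h2 h3 h4
    rw [min_eq_right (by linarith : (13 * l + 2) / 28 ≤ 4 * l / 7),
      max_eq_right (a := 5 * (10 * l - 1) / 84) (b := (9 * l - 1) / 15) (by linarith),
      max_eq_right (a := (13 * l + 2) / 28) (b := (9 * l - 1) / 15) (by linarith), min_eq_left (by linarith), max_eq_right (by linarith)]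
  · push Not at h1 h2 h3 h4 h5
    rw [min_eq_right (by linarith : (13 * l + 2) / 28 ≤ 4 * l / 7),
      max_eq_right (a := 5 * (10 * l - 1) / 84) (b := (9 * l - 1) / 15) (by linarith),
      max_eq_right (a := (13 * l + 2) / 28) (b := (9 * l - 1) / 15) (by linarith), min_eq_left (by linarith), max_eq_left (by linarith)]

/-! ### nondecreasing and 1-Lipschitz -/

/-- nondecreasing and 1-Lipschitz -/
def ML (f : ℝ → ℝ) : Prop := ∀ l m : ℝ, l ≤ m → f l ≤ f m ∧ f m ≤ f l + (m - l)

theorem ML.max {f g : ℝ → ℝ} (hf : ML f) (hg : ML g) : ML fun l => max (f l) (g l) := by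
  intro l m h
  obtain ⟨f1, f2⟩ := hf l m h
  obtain ⟨g1, g2⟩ := hg l m h
  refine ⟨max_le_max f1 g1, max_le ?_ ?_⟩
  · have := le_max_left (f l) (g l)
    linarith
  · have := le_max_right (f l) (g l)
    linarith

theorem ML.min {f g : ℝ → ℝ} (hf : ML f) (hg : ML g) : ML fun l => min (f l) (g l) := by
  intro l m h
  obtain ⟨f1, f2⟩ := hf l m h
  obtain ⟨g1, g2⟩ := hg l m h
  refine ⟨min_le_min f1 g1, ?_⟩
  rcases min_choice (f l) (g l) with e | e
  · have := min_le_left (f m) (g m)
    simp only
    rw [e]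
    linarith
  · have := min_le_right (f m) (g m)
    simp only
    rw [e]
    linarith

theorem ml_Fx : ML Fx := by
  have e : Fx = fun l => max (l - 1) (min 1 (max (min (4 * l / 7) ((13 * l + 2) / 28))
      (max (5 * (10 * l - 1) / 84) ((9 * l - 1) / 15)))) := funext Fx_eq
  rw [e]
  have h1 : ML fun l => l - 1 := fun l m h => ⟨by linarith, by linarith⟩
  have h2 : ML fun _ => 1 := fun l m h => ⟨by linarith, by linarith⟩
  have h3 : ML fun l => 4 * l / 7 := fun l m h => ⟨by linarith, by linarith⟩
  have h4 : ML fun l => (13 * l + 2) / 28 := fun l m h => ⟨by linarith, by linarith⟩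
  have h5 : ML fun l => 5 * (10 * l - 1) / 84 := fun l m h => ⟨by linarith, by linarith⟩
  have h6 : ML fun l => (9 * l - 1) / 15 := fun l m h => ⟨by linarith, by linarith⟩
  exact h1.max (h2.min ((h3.min h4).max (h5.max h6)))

/-! ### the quotient `(1 - f) / (2 - l)` -/

/-- `(1 - f l) / (2 - l)` is nonincreasing on `l < 2` -/
def HH (f : ℝ → ℝ) : Prop := ∀ l m : ℝ, l ≤ m → m < 2 → (1 - f m) * (2 - l) ≤ (1 - f l) * (2 - m)

theorem HH.max {f g : ℝ → ℝ} (hf : HH f) (hg : HH g) : HH fun l => max (f l) (g l) := by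
  intro l m h hm
  simp only
  rcases max_choice (f l) (g l) with e | e
  · rw [e]
    refine le_trans (mul_le_mul_of_nonneg_right ?_ (by linarith)) (hf l m h hm)
    have := le_max_left (f m) (g m)
    linarith
  · rw [e]
    refine le_trans (mul_le_mul_of_nonneg_right ?_ (by linarith)) (hg l m h hm)
    have := le_max_right (f m) (g m)
    linarith

theorem HH.min {f g : ℝ → ℝ} (hf : HH f) (hg : HH g) : HH fun l => min (f l) (g l) := by
  intro l m h hm
  simp only
  rcases min_choice (f m) (g m) with e | e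
  · rw [e]
    refine (hf l m h hm).trans (mul_le_mul_of_nonneg_right ?_ (by linarith))
    have := min_le_left (f l) (g l)
    linarith
  · rw [e]
    refine (hg l m h hm).trans (mul_le_mul_of_nonneg_right ?_ (by linarith))
    have := min_le_right (f l) (g l)
    linarith

theorem hh_Fx : HH Fx := by
  have e : Fx = fun l => max (l - 1) (min 1 (max (min (4 * l / 7) ((13 * l + 2) / 28))
      (max (5 * (10 * l - 1) / 84) ((9 * l - 1) / 15)))) := funext Fx_eq
  rw [e]
  have h1 : HH fun l => l - 1 := fun l m h _ => by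
    simp only
    nlinarith
  have h2 : HH fun _ => 1 := fun l m h _ => by simp
  have h3 : HH fun l => 4 * l / 7 := fun l m h _ => by
    simp only
    nlinarith
  have h4 : HH fun l => (13 * l + 2) / 28 := fun l m h _ => by
    simp only
    nlinarith
  have h5 : HH fun l => 5 * (10 * l - 1) / 84 := fun l m h _ => by
    simp only
    nlinarith
  have h6 : HH fun l => (9 * l - 1) / 15 := fun l m h _ => by
    simp only
    nlinarith
  exact h1.max (h2.min ((h3.min h4).max (h5.max h6)))

/-! ### the quotient `f / (l - 1)` -/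

/-- `f l / (l - 1)` is nonincreasing on `l > 1` -/
def GG (f : ℝ → ℝ) : Prop := ∀ l m : ℝ, 1 < l → l ≤ m → f m * (l - 1) ≤ f l * (m - 1)

theorem GG.max {f g : ℝ → ℝ} (hf : GG f) (hg : GG g) : GG fun l => max (f l) (g l) := by
  intro l m h hm
  simp only
  rcases max_choice (f m) (g m) with e | e
  · rw [e]
    refine (hf l m h hm).trans (mul_le_mul_of_nonneg_right (le_max_left _ _) (by linarith))
  · rw [e]
    refine (hg l m h hm).trans (mul_le_mul_of_nonneg_right (le_max_right _ _) (by linarith))

theorem GG.min {f g : ℝ → ℝ} (hf : GG f) (hg : GG g) : GG fun l => min (f l) (g l) := by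
  intro l m h hm
  simp only
  rcases min_choice (f l) (g l) with e | e
  · rw [e]
    exact (mul_le_mul_of_nonneg_right (min_le_left _ _) (by linarith)).trans (hf l m h hm)
  · rw [e]
    exact (mul_le_mul_of_nonneg_right (min_le_right _ _) (by linarith)).trans (hg l m h hm)

theorem gg_Fx : GG Fx := by
  have e : Fx = fun l => max (l - 1) (min 1 (max (min (4 * l / 7) ((13 * l + 2) / 28))
      (max (5 * (10 * l - 1) / 84) ((9 * l - 1) / 15)))) := funext Fx_eq
  rw [e]
  have h1 : GG fun l => l - 1 := fun l m _ h => by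
    simp only
    nlinarith
  have h2 : GG fun _ => 1 := fun l m _ h => by
    simp only
    nlinarith
  have h3 : GG fun l => 4 * l / 7 := fun l m _ h => by
    simp only
    nlinarith
  have h4 : GG fun l => (13 * l + 2) / 28 := fun l m _ h => by
    simp only
    nlinarith
  have h5 : GG fun l => 5 * (10 * l - 1) / 84 := fun l m _ h => by
    simp only
    nlinarith
  have h6 : GG fun l => (9 * l - 1) / 15 := fun l m _ h => by
    simp only
    nlinarith
  exact h1.max (h2.min ((h3.min h4).max (h5.max h6)))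

theorem Fx_ge (l : ℝ) : l - 1 ≤ Fx l := by
  rw [Fx_eq]
  exact le_max_left _ _

theorem Fx_two (l : ℝ) (h : 2 ≤ l) : Fx l = l - 1 := by
  rcases eq_or_lt_of_le h with rfl | h
  · unfold Fx
    norm_num
  · unfold Fx
    rw [if_neg (by linarith), if_neg (by linarith), if_neg (by linarith), if_neg (by linarith),
      if_neg (by linarith)]

theorem Fx_pos (l : ℝ) (h : 0 < l) : 0 < Fx l := by
  unfold Fx
  split_ifs with h1 h2 h3 h4 h5
  · positivity
  · positivity
  · push Not at h1 h2
    linarith
  · push Not at h1 h2 h3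
    linarith
  · norm_num
  · push Not at h5
    linarith

end Pool.Agent.W221.ABC7
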