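import Mathlib
import Pool.Agent.H705R2.ABC.Main
import Pool.Agent.W342.AB.W1
import Pool.Agent.W583.AB.O
import Pool.Agent.W583.AB.CS
import Pool.Agent.W221.ABC.Cell7
import Pool.Agent.W221.ABC.Fin7
import Pool.Agent.W221.ABC.Chk7c
import Pool.Agent.W221.ABC.Fx

/-!
# abc-triples with `rad (abc) ≤ c ^ lam`: from a certificate to the count
-/

namespace Pool.Agent.W221.ABC7

open Finset Pool.Agent.H785R2.ABC Pool.Agent.H705R2.ABC

theorem mcell' : StmtMcell := stmtMcell_of basics stmtA4' (stmtM1_of basics stmtA4' stmtD')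

theorem bridge' : StmtBridge :=
  stmtBridge_of basics mcell' (stmtEcell_of basics stmtA4'
    (Pool.Agent.W583.AB.stmtO_of basics stmtA4'
      (Pool.Agent.W342.AB.stmtW1_of basics (stmtA3_of stmtA2) (stmtA5_of (stmtA3_of stmtA2)) stmtD'))
    Pool.Agent.W583.AB.stmtCS)

/-- a certificate gives a count -/
theorem count_seg (P : Prm) (ns : List ℕ) (hrun : run P ns [[]] = true) (hd : 0 < P.den)
    (lam : ℝ) (hl : 0 ≤ lam) (hlo : (P.lon : ℝ) ≤ P.lod * lam) (hhi : P.hid * lam ≤ P.hin)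
    (h0 : 0 ≤ P.th lam) : StmtCount lam (P.th lam) :=
  count_of7 basics lam _ h0 (cell_bound7 basics (PO.stmtPoly_of basics) mcell' stmtEst' stmtDc'
    bridge' lam _ (fun δ hδ v w hP hf => no_fail7 P ns hrun hd lam δ hl hδ hlo hhi v w hP hf))

theorem count_mono {lam θ θ' : ℝ} (h : StmtCount lam θ) (hθ : θ ≤ θ') : StmtCount lam θ' := by
  intro ε hε
  obtain ⟨C, hC⟩ := h ε hε
  refine ⟨|C|, fun X hX => (hC X hX).trans ?_⟩
  have hX1 : (1 : ℝ) ≤ X := by exact_mod_cast hX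
  calc C * (X : ℝ) ^ (θ + ε) ≤ |C| * (X : ℝ) ^ (θ + ε) :=
        mul_le_mul_of_nonneg_right (le_abs_self C) (Real.rpow_nonneg (by linarith) _)
    _ ≤ |C| * (X : ℝ) ^ (θ' + ε) :=
        mul_le_mul_of_nonneg_left (Real.rpow_le_rpow_of_exponent_le hX1 (by linarith))
          (abs_nonneg C)

/-- the trivial bound -/
theorem count_triv (lam : ℝ) : StmtCount lam 2 := by
  intro ε hε
  refine ⟨4, fun X hX => ?_⟩
  have hX1 : (1 : ℝ) ≤ X := by exact_mod_cast hX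
  have hinj : Set.InjOn (fun t : ℕ × ℕ × ℕ => (t.1, t.2.1)) {t : ℕ × ℕ × ℕ |
      IsABCTriple t.1 t.2.1 t.2.2 ∧ t.2.2 ≤ X ∧
        (rad (t.1 * t.2.1 * t.2.2) : ℝ) ≤ (t.2.2 : ℝ) ^ lam} := by
    rintro ⟨a, b, c⟩ ⟨⟨_, _, _, h1, _⟩, _⟩ ⟨a', b', c'⟩ ⟨⟨_, _, _, h2, _⟩, _⟩ he
    simp only [Prod.mk.injEq] at he h1 h2 ⊢
    exact ⟨he.1, he.2, by omega⟩
  have h1 := Set.ncard_le_ncard_of_injOn (t := ((range (X + 1) ×ˢ range (X + 1) :
      Finset (ℕ × ℕ)) : Set (ℕ × ℕ))) (fun t : ℕ × ℕ × ℕ => (t.1, t.2.1)) (by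
    rintro ⟨a, b, c⟩ ⟨⟨_, _, _, h1, _⟩, h2, _⟩
    simp only at h1 h2
    simp only [coe_product, coe_range, Set.mem_prod, Set.mem_Iio]
    omega) hinj (Finset.finite_toSet _)
  rw [Set.ncard_coe_finset, card_product, card_range] at h1
  calc _ ≤ (((X + 1) * (X + 1) : ℕ) : ℝ) := by exact_mod_cast h1
    _ ≤ 4 * (X : ℝ) ^ (2 : ℝ) := by
        rw [Real.rpow_two]
        push_cast
        nlinarith
    _ ≤ 4 * (X : ℝ) ^ (2 + ε) :=
        mul_le_mul_of_nonneg_left (Real.rpow_le_rpow_of_exponent_le hX1 (by linarith))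
          (by norm_num)

/-- the abc-triples with `c ≤ X` and `rad (abc) ≤ B * c ^ lam` -/
def ExcB (B lam : ℝ) (X : ℕ) : Set (ℕ × ℕ × ℕ) :=
  {t | 0 < t.1 ∧ 0 < t.2.1 ∧ Nat.Coprime t.1 t.2.1 ∧ t.1 + t.2.1 = t.2.2 ∧ t.2.2 ≤ X ∧
    (rad (t.1 * t.2.1 * t.2.2) : ℝ) ≤ B * (t.2.2 : ℝ) ^ lam}

theorem excB_finite (B lam : ℝ) (X : ℕ) : (ExcB B lam X).Finite := by
  refine Set.Finite.subset (Finset.finite_toSet
    ((range (X + 1)) ×ˢ (range (X + 1)) ×ˢ (range (X + 1)))) ?_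
  rintro ⟨a, b, c⟩ ⟨h1, h2, h3, h4, h5, h6⟩
  simp only at h1 h2 h4 h5
  simp only [coe_product, Set.mem_prod, coe_range, Set.mem_Iio]
  omega

/-- the constant `B` does not matter -/
theorem count_B (F : ℝ → ℝ) (hF0 : ∀ l, 0 < l → 0 ≤ F l) (hF : ML F)
    (hc : ∀ l, 0 < l → StmtCount l (F l)) (B lam ε : ℝ) (hlam : 0 < lam) (hε : 0 < ε) :
    ∃ C : ℝ, ∀ X : ℕ, 1 ≤ X →
    ((ExcB B lam X).ncard : ℝ) ≤ C * (X : ℝ) ^ (F lam + ε) := by
  obtain ⟨C, hC⟩ := hc (lam + ε / 2) (by linarith) (ε / 2) (by positivity)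
  set B' : ℝ := max B 1 with hB'
  have hB1 : 1 ≤ B' := le_max_right _ _
  set c0 : ℕ := ⌈B' ^ (2 / ε)⌉₊ with hc0
  have hθ : F (lam + ε / 2) + ε / 2 ≤ F lam + ε := by
    have := (hF lam (lam + ε / 2) (by linarith)).2
    linarith
  have hθ0 : 0 ≤ F lam + ε := by
    have := hF0 lam hlam
    linarith
  refine ⟨|C| + ((ExcB B lam c0).ncard : ℝ), fun X hX => ?_⟩
  have hX1 : (1 : ℝ) ≤ X := by exact_mod_cast hX
  set A : Set (ℕ × ℕ × ℕ) := {t : ℕ × ℕ × ℕ | IsABCTriple t.1 t.2.1 t.2.2 ∧ t.2.2 ≤ X ∧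
      (rad (t.1 * t.2.1 * t.2.2) : ℝ) ≤ (t.2.2 : ℝ) ^ (lam + ε / 2)} with hA
  have hAfin : A.Finite := by
    refine Set.Finite.subset (Finset.finite_toSet
      ((range (X + 1)) ×ˢ (range (X + 1)) ×ˢ (range (X + 1)))) ?_
    rintro ⟨a, b, c⟩ ⟨⟨h1, h2, h3, h4, h5⟩, h6, h7⟩
    simp only at h1 h2 h4 h6
    simp only [coe_product, Set.mem_prod, coe_range, Set.mem_Iio]
    omega
  have hsub : ExcB B lam X ⊆ A ∪ ExcB B lam c0 := by
    rintro ⟨a, b, c⟩ ⟨ha, hb, hab, habc, hc, hr⟩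
    simp only at ha hb hab habc hc hr
    by_cases hcc : c ≤ c0
    · right
      exact ⟨ha, hb, hab, habc, hcc, hr⟩
    · left
      push Not at hcc
      subst habc
      have hcpos : 0 < a + b := Nat.add_pos_left ha b
      have hcr : (0 : ℝ) < ((a + b : ℕ) : ℝ) := by exact_mod_cast hcpos
      refine ⟨⟨ha, hb, hcpos, rfl, hab, ?_, ?_⟩, hc, ?_⟩
      · simpa using hab
      · simpa using hab.symm
      · have h1 : B' ^ (2 / ε) ≤ ((a + b : ℕ) : ℝ) :=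
          (Nat.le_ceil _).trans (by exact_mod_cast hcc.le)
        have h2 : B' ≤ ((a + b : ℕ) : ℝ) ^ (ε / 2) := by
          have h3 := Real.rpow_le_rpow (by positivity) h1 (z := ε / 2) (by positivity)
          rw [← Real.rpow_mul (by linarith)] at h3
          have h4 : 2 / ε * (ε / 2) = 1 := by field_simp
          rwa [h4, Real.rpow_one] at h3
        calc (rad (a * b * (a + b)) : ℝ) ≤ B * ((a + b : ℕ) : ℝ) ^ lam := hr
          _ ≤ B' * ((a + b : ℕ) : ℝ) ^ lam :=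
              mul_le_mul_of_nonneg_right (le_max_left _ _) (Real.rpow_nonneg hcr.le _)
          _ ≤ ((a + b : ℕ) : ℝ) ^ (ε / 2) * ((a + b : ℕ) : ℝ) ^ lam :=
              mul_le_mul_of_nonneg_right h2 (Real.rpow_nonneg hcr.le _)
          _ = ((a + b : ℕ) : ℝ) ^ (lam + ε / 2) := by
              rw [← Real.rpow_add hcr]
              congr 1
              ring
  have h1 : ((ExcB B lam X).ncard : ℝ) ≤ (A.ncard : ℝ) + ((ExcB B lam c0).ncard : ℝ) := by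
    have h2 := Set.ncard_le_ncard hsub (hAfin.union (excB_finite B lam c0))
    have h3 := Set.ncard_union_le A (ExcB B lam c0)
    exact_mod_cast h2.trans h3
  have h2 : (A.ncard : ℝ) ≤ |C| * (X : ℝ) ^ (F lam + ε) := by
    calc (A.ncard : ℝ) ≤ C * (X : ℝ) ^ (F (lam + ε / 2) + ε / 2) := hC X hX
      _ ≤ |C| * (X : ℝ) ^ (F (lam + ε / 2) + ε / 2) :=
          mul_le_mul_of_nonneg_right (le_abs_self C) (Real.rpow_nonneg (by linarith) _)
      _ ≤ |C| * (X : ℝ) ^ (F lam + ε) :=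
          mul_le_mul_of_nonneg_left (Real.rpow_le_rpow_of_exponent_le hX1 hθ) (abs_nonneg C)
  have h3 : ((ExcB B lam c0).ncard : ℝ) ≤
      ((ExcB B lam c0).ncard : ℝ) * (X : ℝ) ^ (F lam + ε) :=
    le_mul_of_one_le_right (Nat.cast_nonneg _) (Real.one_le_rpow hX1 hθ0)
  calc ((ExcB B lam X).ncard : ℝ) ≤ (A.ncard : ℝ) + ((ExcB B lam c0).ncard : ℝ) := h1
    _ ≤ _ := by
        rw [add_mul]
        exact add_le_add h2 h3

end Pool.Agent.W221.ABC7
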