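import Mathlib
import Pool.Agent.W221.ABC.Main7a
import Pool.Agent.W221.ABC.CS1
import Pool.Agent.W221.ABC.CS2
import Pool.Agent.W221.ABC.CS3
import Pool.Agent.W221.ABC.CS4
import Pool.Agent.W221.ABC.CS5
import Pool.Agent.W221.ABC.CS6
import Pool.Agent.W221.ABC.CS7
import Pool.Agent.W221.ABC.CS8
import Pool.Agent.W221.ABC.CS9
import Pool.Agent.W221.Sz.Stm
import Pool.Agent.W101.Sz.Pairs
import Pool.Agent.W261.Sz.Twist

/-!
# The count of abc-triples with `rad (abc) ≤ c ^ lam`, all `lam`, and Szpiro with 2-torsion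
-/

namespace Pool.Agent.W221.ABC7

open Finset Pool.Agent.H785R2.ABC Pool.Agent.H705R2.ABC

/-- between `2/3` and `1` -/
theorem count_A (lam : ℝ) (h1 : 2 / 3 ≤ lam) (h2 : lam ≤ 1) : StmtCount lam ((13 * lam + 2) / 28) := by
  rcases le_total lam (7 / 9) with h | h
  · have := count_seg CS1.prm CS1.dat CS1.run_ok (by norm_num [CS1.prm]) lam (by linarith)
      (by simp only [CS1.prm]; push_cast; linarith) (by simp only [CS1.prm]; push_cast; linarith)
      (by simp only [Prm.th, CS1.prm]; norm_num; linarith)
    simpa [Prm.th, CS1.prm] using this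
  rcases le_total lam (8 / 9) with h' | h'
  · have := count_seg CS2.prm CS2.dat CS2.run_ok (by norm_num [CS2.prm]) lam (by linarith)
      (by simp only [CS2.prm]; push_cast; linarith) (by simp only [CS2.prm]; push_cast; linarith)
      (by simp only [Prm.th, CS2.prm]; norm_num; linarith)
    simpa [Prm.th, CS2.prm] using this
  rcases le_total lam (17 / 18) with h'' | h''
  · have := count_seg CS3.prm CS3.dat CS3.run_ok (by norm_num [CS3.prm]) lam (by linarith)
      (by simp only [CS3.prm]; push_cast; linarith) (by simp only [CS3.prm]; push_cast; linarith)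
      (by simp only [Prm.th, CS3.prm]; norm_num; linarith)
    simpa [Prm.th, CS3.prm] using this
  · have := count_seg CS4.prm CS4.dat CS4.run_ok (by norm_num [CS4.prm]) lam (by linarith)
      (by simp only [CS4.prm]; push_cast; linarith) (by simp only [CS4.prm]; push_cast; linarith)
      (by simp only [Prm.th, CS4.prm]; norm_num; linarith)
    simpa [Prm.th, CS4.prm] using this

/-- between `1` and `3/2` -/
theorem count_Bseg (lam : ℝ) (h1 : 1 ≤ lam) (h2 : lam ≤ 3 / 2) :
    StmtCount lam (5 * (10 * lam - 1) / 84) := by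
  have e : 5 * (10 * lam - 1) / 84 = (50 * lam - 5) / 84 := by ring
  rw [e]
  rcases le_total lam (13 / 12) with h | h
  · have := count_seg CS5.prm CS5.dat CS5.run_ok (by norm_num [CS5.prm]) lam (by linarith)
      (by simp only [CS5.prm]; push_cast; linarith) (by simp only [CS5.prm]; push_cast; linarith)
      (by simp only [Prm.th, CS5.prm]; norm_num; linarith)
    simpa [Prm.th, CS5.prm] using this
  · have := count_seg CS6.prm CS6.dat CS6.run_ok (by norm_num [CS6.prm]) lam (by linarith)
      (by simp only [CS6.prm]; push_cast; linarith) (by simp only [CS6.prm]; push_cast; linarith)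
      (by simp only [Prm.th, CS6.prm]; norm_num; linarith)
    simpa [Prm.th, CS6.prm] using this

/-- between `3/2` and `16/9` -/
theorem count_Cseg (lam : ℝ) (h1 : 3 / 2 ≤ lam) (h2 : lam ≤ 16 / 9) :
    StmtCount lam ((9 * lam - 1) / 15) := by
  have := count_seg CS7.prm CS7.dat CS7.run_ok (by norm_num [CS7.prm]) lam (by linarith)
    (by simp only [CS7.prm]; push_cast; linarith) (by simp only [CS7.prm]; push_cast; linarith)
    (by simp only [Prm.th, CS7.prm]; norm_num; linarith)
  simpa [Prm.th, CS7.prm] using this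

/-- between `16/9` and `2` -/
theorem count_Dseg (lam : ℝ) (h1 : 16 / 9 ≤ lam) (h2 : lam ≤ 2) : StmtCount lam 1 := by
  have := count_seg CS8.prm CS8.dat CS8.run_ok (by norm_num [CS8.prm]) lam (by linarith)
    (by simp only [CS8.prm]; push_cast; linarith) (by simp only [CS8.prm]; push_cast; linarith)
    (by simp only [Prm.th, CS8.prm]; norm_num)
  simpa [Prm.th, CS8.prm] using this

/-- between `2` and `3` -/
theorem count_Eseg (lam : ℝ) (h1 : 2 ≤ lam) (h2 : lam ≤ 3) : StmtCount lam (lam - 1) := by
  have := count_seg CS9.prm CS9.dat CS9.run_ok (by norm_num [CS9.prm]) lam (by linarith)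
    (by simp only [CS9.prm]; push_cast; linarith) (by simp only [CS9.prm]; push_cast; linarith)
    (by simp only [Prm.th, CS9.prm]; norm_num; linarith)
  simpa [Prm.th, CS9.prm] using this

/-- **The count.** -/
theorem count_Fx (lam : ℝ) (hl : 0 < lam) : StmtCount lam (Fx lam) := by
  unfold Fx
  split_ifs with h1 h2 h3 h4 h5
  · exact main lam hl (by linarith)
  · exact count_A lam (by linarith) h2
  · exact count_Bseg lam (by linarith) h3
  · exact count_Cseg lam (by linarith) h4
  · exact count_Dseg lam (by linarith) h5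
  · push Not at h5
    rcases le_total lam 3 with h | h
    · exact count_Eseg lam h5.le h
    · exact count_mono (count_triv lam) (by linarith)

/-- the count with `rad (abc) ≤ B c ^ lam` -/
theorem count_FxB (B lam ε : ℝ) (hlam : 0 < lam) (hε : 0 < ε) :
    ∃ C : ℝ, ∀ X : ℕ, 1 ≤ X → ((ExcB B lam X).ncard : ℝ) ≤ C * (X : ℝ) ^ (Fx lam + ε) :=
  count_B Fx (fun l hl => (Fx_pos l hl).le) ml_Fx count_Fx B lam ε hlam hε

theorem fok_Fx : Pool.Agent.W221.Sz.FOK Fx where
  cnt := count_Fx
  nonneg := fun l hl => (Fx_pos l hl).le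
  mono := fun l m _ h => (ml_Fx l m h).1
  lip := fun l m _ h => (ml_Fx l m h).2
  ge := fun l _ => Fx_ge l
  two := Fx_two
  h := fun l m _ h hm => hh_Fx l m h hm
  g := fun l m hl h => gg_Fx l m hl h

/-- the count of the exceptional models -/
theorem twist_Fx : Pool.Agent.W221.Sz.StmtTwist Fx :=
  Pool.Agent.W261.Sz.twist_of Fx fok_Fx (Pool.Agent.W101.Sz.pairs_of Fx fok_Fx)

end Pool.Agent.W221.ABC7
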